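import Mathlib

/-!
# Scale mixtures of uniform densities and their maximum likelihood estimator: definitions
-/

set_option autoImplicit false
open MeasureTheory Filter
open scoped ENNReal

namespace Pool.Agent.Helper96.SMU

/-- The open positive orthant `(0,∞)^d`. -/
def orthant (d : ℕ) : Set (Fin d → ℝ) := {y | ∀ i, 0 < y i}

/-- `G ∈ 𝒢_d`: `G` is a Borel probability measure concentrated on `(0,∞)^d`. -/
def IsMixing {d : ℕ} (G : Measure (Fin d → ℝ)) : Prop :=
  IsProbabilityMeasure G ∧ G (orthant d)ᶜ = 0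

/-- The scale mixture of uniforms `f_G(x) = ∫_{y ≥ x} |y|⁻¹ dG(y)`, where `|y| = ∏ i, y i`. -/
noncomputable def smu {d : ℕ} (G : Measure (Fin d → ℝ)) (x : Fin d → ℝ) : ℝ≥0∞ :=
  ∫⁻ y in {y | ∀ i, x i ≤ y i}, ENNReal.ofReal (∏ i, y i)⁻¹ ∂G

/-- The value at the origin `f_G(0) = ∫ |y|⁻¹ dG(y) ∈ (0,∞]`. -/
noncomputable def atOrigin {d : ℕ} (G : Measure (Fin d → ℝ)) : ℝ≥0∞ :=
  ∫⁻ y, ENNReal.ofReal (∏ i, y i)⁻¹ ∂G

/-- The law on `(0,∞)^d` with density `f_G`. -/
noncomputable def law {d : ℕ} (G : Measure (Fin d → ℝ)) : Measure (Fin d → ℝ) :=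
  (volume.restrict (orthant d)).withDensity (smu G)

/-- The log-likelihood `∑ j, log f_G(x_j)` of the sample `x`, with `log 0 = -∞`. -/
noncomputable def logLik {d n : ℕ} (x : Fin n → Fin d → ℝ) (G : Measure (Fin d → ℝ)) : EReal :=
  ∑ j, ENNReal.log (smu G (x j))

/-- `G` is a maximum likelihood estimator of the mixing distribution for the sample `x`: it
maximises the log-likelihood over `𝒢_d`. -/
def IsMLE {d n : ℕ} (x : Fin n → Fin d → ℝ) (G : Measure (Fin d → ℝ)) : Prop :=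
  IsMixing G ∧ ∀ H, IsMixing H → logLik x H ≤ logLik x G

/-- For every `ε > 0` and infinitely many `n`, with probability at least `1 - ε` under the
`n`-fold product of the law with density `f_{G₀}` a maximum likelihood estimator exists and every
maximum likelihood estimator `Ĝ` satisfies `f_Ĝ(0) > a n`. -/
def ExceedsOften {d : ℕ} (G₀ : Measure (Fin d → ℝ)) (a : ℕ → ℝ) : Prop :=
  ∀ ε : ℝ, 0 < ε → ∃ᶠ n : ℕ in atTop, ∃ A : Set (Fin n → Fin d → ℝ), MeasurableSet A ∧
    1 - ε ≤ (Measure.pi (fun _ : Fin n => law G₀)).real A ∧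
    ∀ x ∈ A, (∃ G, IsMLE x G) ∧ ∀ G, IsMLE x G → ENNReal.ofReal (a n) < atOrigin G

end Pool.Agent.Helper96.SMU
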