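import Mathlib
import Pool.Agent.Helper96.SMU.Defs

set_option autoImplicit false
set_option linter.unusedVariables false
open MeasureTheory
open scoped ENNReal

namespace Pool.Agent.Helper96.SMU

variable {d n : ℕ}

theorem logLik_eq (x : Fin n → Fin d → ℝ) (G : Measure (Fin d → ℝ)) :
    logLik x G = ENNReal.log (∏ j, smu G (x j)) := by
  unfold logLik
  induction (Finset.univ : Finset (Fin n)) using Finset.induction_on with
  | empty => simp
  | insert a s ha ih =>
    rw [Finset.sum_insert ha, Finset.prod_insert ha, ENNReal.log_mul_add, ih]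

theorem IsMLE.prod_le {x : Fin n → Fin d → ℝ} {G H : Measure (Fin d → ℝ)} (h : IsMLE x G)
    (hH : IsMixing H) : ∏ j, smu H (x j) ≤ ∏ j, smu G (x j) := by
  have := h.2 H hH
  rw [logLik_eq, logLik_eq, ENNReal.log_le_log_iff] at this
  exact this

theorem measurableSet_ge (x : Fin d → ℝ) : MeasurableSet {y : Fin d → ℝ | ∀ i, x i ≤ y i} := by
  have : {y : Fin d → ℝ | ∀ i, x i ≤ y i} = ⋂ i, {y : Fin d → ℝ | x i ≤ y i} := by
    ext y; simp
  rw [this]
  exact MeasurableSet.iInter (fun i => measurableSet_le measurable_const (measurable_pi_apply i))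

theorem measurableSet_orthant (d : ℕ) : MeasurableSet (orthant d) := by
  have : orthant d = ⋂ i, {y : Fin d → ℝ | 0 < y i} := by
    ext y; simp [orthant]
  rw [this]
  exact MeasurableSet.iInter (fun i => measurableSet_lt measurable_const (measurable_pi_apply i))

theorem measurable_inv_prod : Measurable (fun y : Fin d → ℝ => ENNReal.ofReal (∏ i, y i)⁻¹) := by
  apply ENNReal.measurable_ofReal.comp
  apply Measurable.inv
  exact Finset.measurable_prod _ (fun i _ => measurable_pi_apply i)

theorem smu_add_smul (a b : ℝ≥0∞) (G H : Measure (Fin d → ℝ)) (x : Fin d → ℝ) :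
    smu (a • G + b • H) x = a * smu G x + b * smu H x := by
  unfold smu
  rw [Measure.restrict_add, Measure.restrict_smul, Measure.restrict_smul,
    lintegral_add_measure, lintegral_smul_measure, lintegral_smul_measure]
  rfl

theorem smu_dirac (y x : Fin d → ℝ) (h : ∀ i, x i ≤ y i) :
    smu (Measure.dirac y) x = ENNReal.ofReal (∏ i, y i)⁻¹ := by
  unfold smu
  rw [restrict_dirac' (measurableSet_ge x), if_pos (show y ∈ {y | ∀ i, x i ≤ y i} from h),
    lintegral_dirac' _ measurable_inv_prod]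

theorem isMixing_dirac {y : Fin d → ℝ} (hy : y ∈ orthant d) : IsMixing (Measure.dirac y) := by
  refine ⟨inferInstance, ?_⟩
  rw [Measure.dirac_apply' _ (measurableSet_orthant d).compl]
  simp [hy]

theorem smu_le {G : Measure (Fin d → ℝ)} (hG : IsMixing G) {x : Fin d → ℝ}
    (hx : x ∈ orthant d) : smu G x ≤ ENNReal.ofReal (∏ i, x i)⁻¹ := by
  have := hG.1
  unfold smu
  have hpos : 0 < ∏ i, x i := Finset.prod_pos (fun i _ => hx i)
  calc ∫⁻ y in {y | ∀ i, x i ≤ y i}, ENNReal.ofReal (∏ i, y i)⁻¹ ∂G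
      ≤ ∫⁻ y in {y | ∀ i, x i ≤ y i}, ENNReal.ofReal (∏ i, x i)⁻¹ ∂G := by
        apply setLIntegral_mono measurable_const
        intro y hy
        apply ENNReal.ofReal_le_ofReal
        apply inv_anti₀ hpos
        exact Finset.prod_le_prod (fun i _ => (hx i).le) (fun i _ => hy i)
    _ ≤ ENNReal.ofReal (∏ i, x i)⁻¹ := by
        rw [setLIntegral_const]
        calc ENNReal.ofReal (∏ i, x i)⁻¹ * G {y | ∀ i, x i ≤ y i}
            ≤ ENNReal.ofReal (∏ i, x i)⁻¹ * 1 := by
              gcongr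
              exact prob_le_one
          _ = _ := mul_one _

/-- all values of the fitted density at the sample are positive -/
theorem IsMLE.prod_pos {x : Fin n → Fin d → ℝ} {G : Measure (Fin d → ℝ)} (h : IsMLE x G) :
    0 < ∏ j, smu G (x j) := by
  obtain ⟨y, hy, hxy⟩ : ∃ y : Fin d → ℝ, y ∈ orthant d ∧ ∀ j i, x j i ≤ y i := by
    refine ⟨fun i => 1 + ∑ j, |x j i|, ?_, ?_⟩
    · intro i
      have : 0 ≤ ∑ j, |x j i| := Finset.sum_nonneg (fun j _ => abs_nonneg _)
      show 0 < 1 + ∑ j, |x j i|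
      linarith
    · intro j i
      have h1 : |x j i| ≤ ∑ j, |x j i| :=
        Finset.single_le_sum (f := fun j => |x j i|) (fun j _ => abs_nonneg _) (Finset.mem_univ j)
      have h2 := le_abs_self (x j i)
      linarith
  refine lt_of_lt_of_le ?_ (h.prod_le (isMixing_dirac hy))
  have h2 : ∀ j, smu (Measure.dirac y) (x j) = ENNReal.ofReal (∏ i, y i)⁻¹ :=
    fun j => smu_dirac y (x j) (hxy j)
  simp only [h2]
  rw [Finset.prod_const]
  apply ENNReal.pow_pos
  rw [ENNReal.ofReal_pos]
  exact inv_pos.mpr (Finset.prod_pos (fun i _ => hy i))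

/-- the one-point optimality condition, up to a constant -/
theorem IsMLE.ge {x : Fin n → Fin d → ℝ} {G : Measure (Fin d → ℝ)} (h : IsMLE x G)
    (hx : ∀ j, x j ∈ orthant d) (i : Fin n) :
    ENNReal.ofReal (1 / (4 * n * ∏ a, x i a)) ≤ smu G (x i) := by
  have := h.1.1
  have hn : 0 < n := i.pos
  have hnR : (1:ℝ) ≤ n := by exact_mod_cast hn
  have hpos : 0 < ∏ a, x i a := Finset.prod_pos (fun a _ => hx i a)
  obtain ⟨ε, hε⟩ : ∃ ε : ℝ, ε = 1 / (2 * n) := ⟨_, rfl⟩
  have hε0 : 0 < ε := by rw [hε]; positivity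
  have hε1 : ε ≤ 1 / 2 := by
    rw [hε, div_le_div_iff₀ (by positivity) (by norm_num)]; linarith
  set H : Measure (Fin d → ℝ) := ENNReal.ofReal (1 - ε) • G +
    ENNReal.ofReal ε • Measure.dirac (x i) with hH
  have hHmix : IsMixing H := by
    constructor
    · constructor
      rw [hH, Measure.add_apply, Measure.smul_apply, Measure.smul_apply, measure_univ,
        measure_univ, smul_eq_mul, smul_eq_mul, mul_one, mul_one,
        ← ENNReal.ofReal_add (by linarith) hε0.le]
      norm_num
    · rw [hH, Measure.add_apply, Measure.smul_apply, Measure.smul_apply, h.1.2,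
        (isMixing_dirac (hx i)).2]
      simp
  have hle := h.prod_le hHmix
  have hval : ∀ j, ENNReal.ofReal (1 - ε) * smu G (x j) ≤ smu H (x j) := by
    intro j
    rw [hH, smu_add_smul]
    exact le_self_add
  have hvali : ENNReal.ofReal (ε / ∏ a, x i a) ≤ smu H (x i) := by
    rw [hH, smu_add_smul, smu_dirac _ _ (fun _ => le_rfl), ← ENNReal.ofReal_mul hε0.le]
    rw [div_eq_mul_inv]
    exact le_add_self
  obtain ⟨P, hP⟩ : ∃ P : ℝ≥0∞, P = ∏ j ∈ Finset.univ.erase i, smu G (x j) := ⟨_, rfl⟩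
  have hprod : ∏ j, smu G (x j) = smu G (x i) * P := by
    rw [hP]
    exact (Finset.mul_prod_erase _ (fun j => smu G (x j)) (Finset.mem_univ i)).symm
  have hfin : ∀ j, smu G (x j) ≠ ⊤ := fun j =>
    ne_top_of_le_ne_top ENNReal.ofReal_ne_top (smu_le h.1 (hx j))
  have hPtop : P ≠ ⊤ := by
    rw [hP]
    exact ENNReal.prod_ne_top (fun j _ => hfin j)
  have hP0 : P ≠ 0 := by
    intro h0
    have := h.prod_pos
    rw [hprod, h0, mul_zero] at this
    exact lt_irrefl _ this
  have hprodH : ENNReal.ofReal (ε / ∏ a, x i a) * (ENNReal.ofReal (1 - ε) ^ (n - 1) * P)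
      ≤ ∏ j, smu H (x j) := by
    rw [← Finset.mul_prod_erase _ _ (Finset.mem_univ i)]
    apply mul_le_mul' hvali
    have hc : (Finset.univ.erase i : Finset (Fin n)).card = n - 1 := by
      rw [Finset.card_erase_of_mem (Finset.mem_univ i), Finset.card_univ, Fintype.card_fin]
    rw [hP, ← hc, ← Finset.prod_const, ← Finset.prod_mul_distrib]
    exact Finset.prod_le_prod' (fun j _ => hval j)
  have hfinal := hprodH.trans hle
  rw [hprod, ← mul_assoc] at hfinal
  have hcancel : ENNReal.ofReal (ε / ∏ a, x i a) * ENNReal.ofReal (1 - ε) ^ (n - 1)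
      ≤ smu G (x i) := (ENNReal.mul_le_mul_iff_left hP0 hPtop).mp hfinal
  refine le_trans ?_ hcancel
  rw [← ENNReal.ofReal_pow (by linarith), ← ENNReal.ofReal_mul (by positivity)]
  apply ENNReal.ofReal_le_ofReal
  have hbern : 1 / 2 ≤ (1 - ε) ^ (n - 1) := by
    have h1 := one_add_mul_le_pow (show (-2:ℝ) ≤ -ε by linarith) (n - 1)
    have h2 : ((n - 1 : ℕ) : ℝ) * ε ≤ 1 / 2 := by
      rw [Nat.cast_sub (by omega), hε]
      push_cast
      rw [mul_one_div, div_le_div_iff₀ (by positivity) (by norm_num)]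
      linarith
    have h3 : (1:ℝ) + -ε = 1 - ε := by ring
    rw [h3] at h1
    linarith
  calc 1 / (4 * n * ∏ a, x i a) = ε / (∏ a, x i a) * (1 / 2) := by
        rw [hε]; field_simp; norm_num
    _ ≤ ε / (∏ a, x i a) * (1 - ε) ^ (n - 1) := by
        apply mul_le_mul_of_nonneg_left hbern (by positivity)

/-- separated sample points contribute additively to the value at the origin -/
theorem IsMLE.sum_le {x : Fin n → Fin d → ℝ} {G : Measure (Fin d → ℝ)} (h : IsMLE x G)
    (hx : ∀ j, x j ∈ orthant d) {ι : Type*} (K : Finset ι) (z : ι → Fin n) {D : ℝ} (hD : 0 < D)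
    (hsep : ∀ k ∈ K, ∀ k' ∈ K, k ≠ k' → D ≤ ∏ a, max (x (z k) a) (x (z k') a)) :
    ∑ k ∈ K, ENNReal.ofReal (1 / (4 * n * ∏ a, x (z k) a))
      ≤ atOrigin G + K.card * ENNReal.ofReal D⁻¹ := by
  classical
  have := h.1.1
  set φ : (Fin d → ℝ) → ℝ≥0∞ := fun y => ENNReal.ofReal (∏ i, y i)⁻¹ with hφ
  set S : Set (Fin d → ℝ) := {y | ∏ i, y i < D} with hS
  have hSm : MeasurableSet S :=
    measurableSet_lt (Finset.measurable_prod _ (fun i _ => measurable_pi_apply i))
      measurable_const
  have hone : ∀ k ∈ K, ENNReal.ofReal (1 / (4 * n * ∏ a, x (z k) a)) ≤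
      (∫⁻ y in {y | ∀ i, x (z k) i ≤ y i} ∩ S, φ y ∂G) + ENNReal.ofReal D⁻¹ := by
    intro k _
    refine (h.ge hx (z k)).trans ?_
    unfold smu
    rw [← lintegral_inter_add_sdiff _ _ hSm]
    apply add_le_add le_rfl
    calc ∫⁻ y in {y | ∀ i, x (z k) i ≤ y i} \ S, φ y ∂G
        ≤ ∫⁻ y in {y | ∀ i, x (z k) i ≤ y i} \ S, ENNReal.ofReal D⁻¹ ∂G := by
          apply setLIntegral_mono measurable_const
          intro y hy
          apply ENNReal.ofReal_le_ofReal
          apply inv_anti₀ hD
          have := hy.2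
          rw [hS, Set.mem_ofPred_eq, not_lt] at this
          exact this
      _ ≤ ENNReal.ofReal D⁻¹ := by
          rw [setLIntegral_const]
          calc ENNReal.ofReal D⁻¹ * G _ ≤ ENNReal.ofReal D⁻¹ * 1 := by
                gcongr
                exact prob_le_one
            _ = _ := mul_one _
  refine (Finset.sum_le_sum hone).trans ?_
  rw [Finset.sum_add_distrib, Finset.sum_const, nsmul_eq_mul]
  apply add_le_add _ le_rfl
  have hdisj : Set.PairwiseDisjoint (K : Set ι)
      (fun k => {y : Fin d → ℝ | ∀ i, x (z k) i ≤ y i} ∩ S) := by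
    intro k hk k' hk' hne
    rw [Function.onFun, Set.disjoint_left]
    rintro y ⟨hy1, hy2⟩ ⟨hy3, _⟩
    have h1 := hsep k hk k' hk' hne
    have h2 : ∏ a, max (x (z k) a) (x (z k') a) ≤ ∏ a, y a := by
      apply Finset.prod_le_prod
      · intro a _
        exact (hx (z k) a).le.trans (le_max_left _ _)
      · intro a _
        exact max_le (hy1 a) (hy3 a)
    rw [hS, Set.mem_ofPred_eq] at hy2
    linarith
  rw [← lintegral_biUnion_finset hdisj (fun k _ => (measurableSet_ge _).inter hSm)]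
  unfold atOrigin
  exact setLIntegral_le_lintegral _ _

end Pool.Agent.Helper96.SMU
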