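import Mathlib

set_option autoImplicit false
set_option linter.unusedVariables false
set_option linter.unusedSectionVars false
open MeasureTheory
open scoped ENNReal

namespace Pool.Agent.Helper96.SMU

section
variable {Ω : Type*} [MeasurableSpace Ω] {μ : Measure Ω} [IsProbabilityMeasure μ]

theorem int_ind {M : Set Ω} (hM : MeasurableSet M) :
    Integrable (M.indicator (fun _ => (1:ℝ))) μ :=
  (integrable_const (1:ℝ)).indicator hM

theorem ind_mul (M M' : Set Ω) (ω : Ω) :
    M.indicator (fun _ => (1:ℝ)) ω * M'.indicator (fun _ => (1:ℝ)) ω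
      = (M ∩ M').indicator (fun _ => (1:ℝ)) ω := by
  by_cases h : ω ∈ M <;> by_cases h' : ω ∈ M' <;> simp [Set.indicator, h, h']

theorem integral_ind {M : Set Ω} (hM : MeasurableSet M) :
    ∫ ω, M.indicator (fun _ => (1:ℝ)) ω ∂μ = μ.real M := by
  rw [integral_indicator hM]
  simp

theorem int_cov {M M' : Set Ω} (hM : MeasurableSet M) (hM' : MeasurableSet M') (a b : ℝ) :
    Integrable (fun ω => (a - M.indicator (fun _ => (1:ℝ)) ω) *
      (b - M'.indicator (fun _ => (1:ℝ)) ω)) μ := by
  have : (fun ω => (a - M.indicator (fun _ => (1:ℝ)) ω) *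
      (b - M'.indicator (fun _ => (1:ℝ)) ω)) = fun ω => a * b -
      a * M'.indicator (fun _ => (1:ℝ)) ω - b * M.indicator (fun _ => (1:ℝ)) ω +
      (M ∩ M').indicator (fun _ => (1:ℝ)) ω := by
    funext ω
    rw [← ind_mul]
    ring
  rw [this]
  exact (((integrable_const _).sub ((int_ind hM').const_mul a)).sub
    ((int_ind hM).const_mul b)).add (int_ind (hM.inter hM'))

theorem integral_cov {M M' : Set Ω} (hM : MeasurableSet M) (hM' : MeasurableSet M') :
    ∫ ω, (μ.real M - M.indicator (fun _ => (1:ℝ)) ω) *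
      (μ.real M' - M'.indicator (fun _ => (1:ℝ)) ω) ∂μ
      = μ.real (M ∩ M') - μ.real M * μ.real M' := by
  have : (fun ω => (μ.real M - M.indicator (fun _ => (1:ℝ)) ω) *
      (μ.real M' - M'.indicator (fun _ => (1:ℝ)) ω)) = fun ω => μ.real M * μ.real M' -
      μ.real M * M'.indicator (fun _ => (1:ℝ)) ω - μ.real M' * M.indicator (fun _ => (1:ℝ)) ω +
      (M ∩ M').indicator (fun _ => (1:ℝ)) ω := by
    funext ω
    rw [← ind_mul]
    ring
  rw [this]
  have i1 : Integrable (fun _ : Ω => μ.real M * μ.real M') μ := integrable_const _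
  have i2 := (int_ind (μ := μ) hM').const_mul (μ.real M)
  have i3 := (int_ind (μ := μ) hM).const_mul (μ.real M')
  have i4 : Integrable (fun ω => (M ∩ M').indicator (fun _ => (1:ℝ)) ω) μ :=
    int_ind (μ := μ) (hM.inter hM')
  have i12 : Integrable (fun ω => μ.real M * μ.real M' -
      μ.real M * M'.indicator (fun _ => (1:ℝ)) ω) μ := i1.sub i2
  have i123 : Integrable (fun ω => μ.real M * μ.real M' -
      μ.real M * M'.indicator (fun _ => (1:ℝ)) ω -
      μ.real M' * M.indicator (fun _ => (1:ℝ)) ω) μ := i12.sub i3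
  rw [integral_add i123 i4, integral_sub i12 i3, integral_sub i1 i2,
    integral_const, integral_const_mul, integral_const_mul, integral_ind hM, integral_ind hM',
    integral_ind (hM.inter hM')]
  simp
  ring

/-- second moment bound for weighted counts of negatively correlated events -/
theorem second_moment {ι : Type*} [DecidableEq ι] (I : Finset ι) (M : ι → Set Ω)
    (hM : ∀ c ∈ I, MeasurableSet (M c)) (w : ι → ℝ) {W : ℝ} (hw : ∀ c ∈ I, 0 ≤ w c ∧ w c ≤ W)
    (hcorr : ∀ c ∈ I, ∀ c' ∈ I, c ≠ c' → μ.real (M c ∩ M c') ≤ μ.real (M c) * μ.real (M c'))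
    {e : ℝ} (he : e ≤ ∑ c ∈ I, w c * (1 - μ.real (M c))) (he0 : 0 < e) :
    μ.real {ω | ∑ c ∈ I, w c * (1 - (M c).indicator (fun _ => (1:ℝ)) ω) < e / 2}
      ≤ 4 * W / e := by
  obtain ⟨e', he'⟩ : ∃ e' : ℝ, e' = ∑ c ∈ I, w c * (1 - μ.real (M c)) := ⟨_, rfl⟩
  rw [← he'] at he
  have he0' : 0 < e' := by linarith
  set T : Ω → ℝ := fun ω => ∑ c ∈ I, w c * (μ.real (M c) - (M c).indicator (fun _ => (1:ℝ)) ω)
    with hT
  have hT2 : ∀ ω, T ω ^ 2 = ∑ c ∈ I, ∑ c' ∈ I, (w c * w c') *
      ((μ.real (M c) - (M c).indicator (fun _ => (1:ℝ)) ω) *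
      (μ.real (M c') - (M c').indicator (fun _ => (1:ℝ)) ω)) := by
    intro ω
    rw [sq, hT]
    simp only
    rw [Finset.sum_mul_sum]
    apply Finset.sum_congr rfl
    intro c _
    apply Finset.sum_congr rfl
    intro c' _
    ring
  have hint : ∀ c ∈ I, ∀ c' ∈ I, Integrable (fun ω => (w c * w c') *
      ((μ.real (M c) - (M c).indicator (fun _ => (1:ℝ)) ω) *
      (μ.real (M c') - (M c').indicator (fun _ => (1:ℝ)) ω))) μ := fun c hc c' hc' =>
    (int_cov (hM c hc) (hM c' hc') _ _).const_mul _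
  have hTint : Integrable (fun ω => T ω ^ 2) μ := by
    simp only [hT2]
    apply integrable_finsetSum
    intro c hc
    apply integrable_finsetSum
    intro c' hc'
    exact hint c hc c' hc'
  have hW0 : ∀ c ∈ I, 0 ≤ 1 - μ.real (M c) := fun c _ => by
    have : μ.real (M c) ≤ 1 := measureReal_le_one
    linarith
  have hvar : ∫ ω, T ω ^ 2 ∂μ ≤ W * e' := by
    simp only [hT2]
    rw [integral_finsetSum _ (fun c hc => integrable_finsetSum _ (fun c' hc' => hint c hc c' hc'))]
    rw [he', Finset.mul_sum]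
    apply Finset.sum_le_sum
    intro c hc
    rw [integral_finsetSum _ (fun c' hc' => hint c hc c' hc')]
    have hterm : ∀ c' ∈ I, ∫ ω, (w c * w c') *
      ((μ.real (M c) - (M c).indicator (fun _ => (1:ℝ)) ω) *
      (μ.real (M c') - (M c').indicator (fun _ => (1:ℝ)) ω)) ∂μ ≤
        if c' = c then W * (w c * (1 - μ.real (M c))) else 0 := by
      intro c' hc'
      rw [integral_const_mul, integral_cov (hM c hc) (hM c' hc')]
      by_cases hcc : c' = c
      · subst hcc
        rw [if_pos rfl, Set.inter_self]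
        have h1 : μ.real (M c') ≤ 1 := measureReal_le_one
        have h0 : 0 ≤ μ.real (M c') := measureReal_nonneg
        have h2 := hw c' hc
        have h3 : w c' * w c' ≤ W * w c' := mul_le_mul_of_nonneg_right h2.2 h2.1
        have h4 : 0 ≤ μ.real (M c') - μ.real (M c') * μ.real (M c') := by nlinarith
        have h5 : μ.real (M c') - μ.real (M c') * μ.real (M c') ≤ 1 - μ.real (M c') := by nlinarith
        calc w c' * w c' * (μ.real (M c') - μ.real (M c') * μ.real (M c'))
            ≤ W * w c' * (μ.real (M c') - μ.real (M c') * μ.real (M c')) :=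
              mul_le_mul_of_nonneg_right h3 h4
          _ ≤ W * w c' * (1 - μ.real (M c')) := by
              apply mul_le_mul_of_nonneg_left h5
              exact mul_nonneg (h2.1.trans h2.2) h2.1
          _ = W * (w c' * (1 - μ.real (M c'))) := by ring
      · rw [if_neg hcc]
        apply mul_nonpos_of_nonneg_of_nonpos
        · exact mul_nonneg (hw c hc).1 (hw c' hc').1
        · have := hcorr c hc c' hc' (fun h => hcc h.symm)
          linarith
    refine (Finset.sum_le_sum hterm).trans ?_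
    rw [Finset.sum_ite_eq' I c]
    rw [if_pos hc]
  have hsub : {ω | ∑ c ∈ I, w c * (1 - (M c).indicator (fun _ => (1:ℝ)) ω) < e / 2} ⊆
      {ω | (e' / 2) ^ 2 ≤ T ω ^ 2} := by
    intro ω hω
    rw [Set.mem_ofPred_eq] at hω ⊢
    have h1 : T ω = ∑ c ∈ I, w c * (1 - (M c).indicator (fun _ => (1:ℝ)) ω) - e' := by
      rw [hT, he', ← Finset.sum_sub_distrib]
      apply Finset.sum_congr rfl
      intro c _
      ring
    have h2 : T ω ≤ -(e' / 2) := by rw [h1]; linarith
    nlinarith
  have hmark := mul_meas_ge_le_integral_of_nonneg (μ := μ)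
    (Filter.Eventually.of_forall (fun ω => sq_nonneg (T ω))) hTint ((e' / 2) ^ 2)
  have h1 : μ.real {ω | ∑ c ∈ I, w c * (1 - (M c).indicator (fun _ => (1:ℝ)) ω) < e / 2}
      ≤ μ.real {ω | (e' / 2) ^ 2 ≤ T ω ^ 2} := measureReal_mono hsub
  refine h1.trans ?_
  have h2 : (e' / 2) ^ 2 * μ.real {ω | (e' / 2) ^ 2 ≤ T ω ^ 2} ≤ W * e' := hmark.trans hvar
  have hWn : 0 ≤ W := by
    by_contra hcon
    push Not at hcon
    have h3 : ∫ ω, T ω ^ 2 ∂μ < 0 := lt_of_le_of_lt hvar (by nlinarith)
    have h4 : 0 ≤ ∫ ω, T ω ^ 2 ∂μ := integral_nonneg (fun ω => sq_nonneg _)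
    linarith
  have h3 : μ.real {ω | (e' / 2) ^ 2 ≤ T ω ^ 2} ≤ 4 * W / e' := by
    rw [le_div_iff₀ he0']
    have h4 : (e' / 2) ^ 2 * μ.real {ω | (e' / 2) ^ 2 ≤ T ω ^ 2} =
      (e' / 4) * (μ.real {ω | (e' / 2) ^ 2 ≤ T ω ^ 2} * e') := by ring
    rw [h4] at h2
    have h5 : (e' / 4) * (μ.real {ω | (e' / 2) ^ 2 ≤ T ω ^ 2} * e') ≤ (e' / 4) * (4 * W) := by
      linarith
    exact le_of_mul_le_mul_left h5 (by positivity)
  refine h3.trans ?_
  exact div_le_div_of_nonneg_left (by positivity) he0 he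

end

section
variable {X : Type*} [MeasurableSpace X] {P : Measure X} [IsProbabilityMeasure P] {n : ℕ}

/-- no sample point lies in `C` -/
def miss (n : ℕ) (C : Set X) : Set (Fin n → X) := {x | ∀ j, x j ∉ C}

theorem miss_eq_pi (C : Set X) : miss n C = Set.pi Set.univ (fun _ => Cᶜ) := by
  ext x
  simp [miss]

theorem measurableSet_miss {C : Set X} (hC : MeasurableSet C) : MeasurableSet (miss n C) := by
  rw [miss_eq_pi]
  exact MeasurableSet.univ_pi (fun _ => hC.compl)

theorem real_miss {C : Set X} (hC : MeasurableSet C) :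
    (Measure.pi (fun _ : Fin n => P)).real (miss n C) = (1 - P.real C) ^ n := by
  rw [miss_eq_pi, Measure.real, Measure.pi_pi, Finset.prod_const, Finset.card_univ,
    Fintype.card_fin, ENNReal.toReal_pow]
  congr 1
  exact probReal_compl_eq_one_sub hC

theorem miss_inter (C C' : Set X) : miss n C ∩ miss n C' = miss n (C ∪ C') := by
  ext x
  simp only [miss, Set.mem_inter_iff, Set.mem_ofPred_eq, Set.mem_union, not_or]
  exact ⟨fun h j => ⟨h.1 j, h.2 j⟩, fun h => ⟨fun j => (h j).1, fun j => (h j).2⟩⟩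

theorem real_miss_inter {C C' : Set X} (hC : MeasurableSet C) (hC' : MeasurableSet C')
    (hd : Disjoint C C') :
    (Measure.pi (fun _ : Fin n => P)).real (miss n C ∩ miss n C')
      ≤ (Measure.pi (fun _ : Fin n => P)).real (miss n C) *
        (Measure.pi (fun _ : Fin n => P)).real (miss n C') := by
  rw [miss_inter, real_miss (hC.union hC'), real_miss hC, real_miss hC',
    measureReal_union hd hC', ← mul_pow]
  have h1 : P.real (C ∪ C') ≤ 1 := measureReal_le_one
  rw [measureReal_union hd hC'] at h1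
  have h2 : 0 ≤ P.real C := measureReal_nonneg
  have h3 : 0 ≤ P.real C' := measureReal_nonneg
  apply pow_le_pow_left₀
  · linarith
  · nlinarith

end

end Pool.Agent.Helper96.SMU
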