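import Mathlib
import Pool.Agent.Helper96.SMU.Fenchel
import Pool.Agent.Helper96.SMU.Moment

set_option autoImplicit false
set_option linter.unusedVariables false
open MeasureTheory
open scoped ENNReal

namespace Pool.Agent.Helper96.SMU

variable {e : ℕ}

/-- half-open box with top corner `b` and bottom corner `b / 2` -/
def bx {d : ℕ} (b : Fin d → ℝ) : Set (Fin d → ℝ) := Set.pi Set.univ (fun i => Set.Ioc (b i / 2) (b i))

theorem mem_bx {d : ℕ} {b x : Fin d → ℝ} : x ∈ bx b ↔ ∀ i, b i / 2 < x i ∧ x i ≤ b i := by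
  unfold bx
  simp [Set.mem_pi, Set.mem_Ioc]

theorem measurableSet_bx {d : ℕ} (b : Fin d → ℝ) : MeasurableSet (bx b) :=
  MeasurableSet.univ_pi (fun _ => measurableSet_Ioc)

theorem vol_bx {d : ℕ} {b : Fin d → ℝ} (hb : ∀ i, 0 ≤ b i) :
    volume (bx b) = ENNReal.ofReal ((∏ i, b i) / 2 ^ d) := by
  unfold bx
  rw [Real.volume_pi_Ioc, ← ENNReal.ofReal_prod_of_nonneg]
  · congr 1
    have : ∀ i, b i - b i / 2 = b i / 2 := fun i => by ring
    simp only [this]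
    rw [Finset.prod_div_distrib, Finset.prod_const, Finset.card_univ, Fintype.card_fin]
  · intro i _
    have := hb i
    linarith

theorem bx_disjoint {d : ℕ} {b b' : Fin d → ℝ} {i : Fin d} (h : b i ≤ b' i / 2) :
    Disjoint (bx b) (bx b') := by
  rw [Set.disjoint_left]
  intro x hx hx'
  have h1 := (mem_bx.mp hx i).2
  have h2 := (mem_bx.mp hx' i).1
  linarith

/-- the top corner of a dyadic piece -/
noncomputable def top (ρ τ : ℝ) (k : ℕ) (j : Fin (e + 1) → ℕ) : Fin (e + 2) → ℝ :=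
  Fin.cons (τ * 2 ^ (∑ i, j i) / ρ ^ k) (fun i => (if i = 0 then ρ ^ k else 1) / 2 ^ (j i))

/-- the top corner of the `k`-th rectangle -/
noncomputable def rect (ρ : ℝ) (k : ℕ) : Fin (e + 2) → ℝ :=
  Fin.cons (1 / ρ ^ k) (fun i => if i = 0 then ρ ^ k else 1)

theorem top_zero (ρ τ : ℝ) (k : ℕ) (j : Fin (e + 1) → ℕ) :
    top ρ τ k j 0 = τ * 2 ^ (∑ i, j i) / ρ ^ k := rfl

theorem top_succ (ρ τ : ℝ) (k : ℕ) (j : Fin (e + 1) → ℕ) (i : Fin (e + 1)) :
    top ρ τ k j i.succ = (if i = 0 then ρ ^ k else 1) / 2 ^ (j i) := rfl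

theorem rect_zero (ρ : ℝ) (k : ℕ) : (rect ρ k : Fin (e + 2) → ℝ) 0 = 1 / ρ ^ k := rfl

theorem rect_succ (ρ : ℝ) (k : ℕ) (i : Fin (e + 1)) :
    (rect ρ k : Fin (e + 2) → ℝ) i.succ = if i = 0 then ρ ^ k else 1 := rfl

theorem prod_ite_zero (c : ℝ) : ∏ i : Fin (e + 1), (if i = 0 then c else 1) = c := by
  rw [Finset.prod_ite_eq']
  simp

theorem prod_top {ρ τ : ℝ} (hρ : 0 < ρ) (k : ℕ) (j : Fin (e + 1) → ℕ) :
    ∏ i, top ρ τ k j i = τ := by
  rw [Fin.prod_univ_succ, top_zero]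
  simp only [top_succ]
  rw [Finset.prod_div_distrib, prod_ite_zero, Finset.prod_pow_eq_pow_sum]
  field_simp

theorem prod_rect {ρ : ℝ} (hρ : 0 < ρ) (k : ℕ) :
    ∏ i, (rect ρ k : Fin (e + 2) → ℝ) i = 1 := by
  rw [Fin.prod_univ_succ, rect_zero]
  simp only [rect_succ]
  rw [prod_ite_zero]
  field_simp

theorem rect_pos {ρ : ℝ} (hρ : 0 < ρ) (k : ℕ) (i : Fin (e + 2)) :
    0 < (rect ρ k : Fin (e + 2) → ℝ) i := by
  refine Fin.cases ?_ (fun i => ?_) i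
  · rw [rect_zero]; positivity
  · rw [rect_succ]; split_ifs <;> positivity

theorem top_pos {ρ τ : ℝ} (hρ : 0 < ρ) (hτ : 0 < τ) (k : ℕ) (j : Fin (e + 1) → ℕ)
    (i : Fin (e + 2)) : 0 < top ρ τ k j i := by
  refine Fin.cases ?_ (fun i => ?_) i
  · rw [top_zero]; positivity
  · rw [top_succ]; split_ifs <;> positivity

theorem top_le_rect {ρ τ : ℝ} (hρ : 0 < ρ) (hτ : 0 ≤ τ) (k : ℕ) {J : ℕ} {j : Fin (e + 1) → ℕ}
    (hj : ∀ i, j i < J) (hτJ : τ * 2 ^ ((e + 1) * J) ≤ 1) (i : Fin (e + 2)) :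
    top ρ τ k j i ≤ rect ρ k i := by
  refine Fin.cases ?_ (fun i => ?_) i
  · rw [top_zero, rect_zero]
    apply div_le_div_of_nonneg_right _ (by positivity)
    have h1 : ∑ i, j i ≤ (e + 1) * J := by
      calc ∑ i, j i ≤ ∑ _i : Fin (e + 1), J := Finset.sum_le_sum (fun i _ => (hj i).le)
        _ = (e + 1) * J := by
          rw [Finset.sum_const, Finset.card_univ, Fintype.card_fin, smul_eq_mul]
    have h2 : (2:ℝ) ^ (∑ i, j i) ≤ 2 ^ ((e + 1) * J) := pow_le_pow_right₀ (by norm_num) h1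
    exact (mul_le_mul_of_nonneg_left h2 hτ).trans hτJ
  · rw [top_succ, rect_succ]
    have h1 : (1:ℝ) ≤ 2 ^ (j i) := one_le_pow₀ (by norm_num)
    have h2 : (0:ℝ) ≤ (if i = 0 then ρ ^ k else 1) := by split_ifs <;> positivity
    exact div_le_self h2 h1

/-- the `k`-th hyperbolic strip at level `τ` -/
noncomputable def cell (ρ τ : ℝ) (k J : ℕ) : Set (Fin (e + 2) → ℝ) :=
  ⋃ j ∈ Fintype.piFinset (fun _ : Fin (e + 1) => Finset.range J), bx (top ρ τ k j)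

theorem mem_cell {ρ τ : ℝ} {k J : ℕ} {x : Fin (e + 2) → ℝ} :
    x ∈ cell ρ τ k J ↔ ∃ j : Fin (e + 1) → ℕ, (∀ i, j i < J) ∧ x ∈ bx (top ρ τ k j) := by
  unfold cell
  simp only [Set.mem_iUnion, Fintype.mem_piFinset, Finset.mem_range, exists_prop]

theorem measurableSet_cell (ρ τ : ℝ) (k J : ℕ) :
    MeasurableSet (cell ρ τ k J : Set (Fin (e + 2) → ℝ)) :=
  Finset.measurableSet_biUnion _ (fun _ _ => measurableSet_bx _)

theorem bx_top_disjoint {ρ τ τ' : ℝ} (hρ : 0 < ρ) (k : ℕ) {j j' : Fin (e + 1) → ℕ}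
    (hne : j ≠ j') : Disjoint (bx (top ρ τ k j)) (bx (top ρ τ' k j')) := by
  have key : ∀ (τ τ' : ℝ) (j j' : Fin (e + 1) → ℕ) (i : Fin (e + 1)), j i < j' i →
      Disjoint (bx (top ρ τ k j)) (bx (top ρ τ' k j')) := by
    intro τ τ' j j' i hlt
    apply Disjoint.symm
    apply bx_disjoint (i := i.succ)
    rw [top_succ, top_succ, div_div]
    apply div_le_div_of_nonneg_left
    · split_ifs <;> positivity
    · positivity
    · rw [← pow_succ]
      exact pow_le_pow_right₀ (by norm_num) hlt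
  obtain ⟨i, hi⟩ : ∃ i, j i ≠ j' i := by
    by_contra hcon
    push Not at hcon
    exact hne (funext hcon)
  rcases lt_or_gt_of_ne hi with h | h
  · exact key τ τ' j j' i h
  · exact (key τ' τ j' j i h).symm

theorem cell_disjoint_level {ρ τ τ' : ℝ} (hρ : 0 < ρ) (k J : ℕ) (hττ : τ' ≤ τ / 2) :
    Disjoint (cell ρ τ k J : Set (Fin (e + 2) → ℝ)) (cell ρ τ' k J) := by
  rw [Set.disjoint_left]
  intro x hx hx'
  obtain ⟨j, hj, hxj⟩ := mem_cell.mp hx
  obtain ⟨j', hj', hxj'⟩ := mem_cell.mp hx'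
  by_cases h : j = j'
  · subst h
    have hd : Disjoint (bx (top ρ τ' k j)) (bx (top ρ τ k j)) := by
      apply bx_disjoint (i := 0)
      rw [top_zero, top_zero]
      have h2 : 0 ≤ (2:ℝ) ^ (∑ i, j i) / ρ ^ k := by positivity
      have h3 := mul_le_mul_of_nonneg_right hττ h2
      calc τ' * 2 ^ (∑ i, j i) / ρ ^ k = τ' * (2 ^ (∑ i, j i) / ρ ^ k) := by ring
        _ ≤ τ / 2 * (2 ^ (∑ i, j i) / ρ ^ k) := h3
        _ = τ * 2 ^ (∑ i, j i) / ρ ^ k / 2 := by ring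
    exact Set.disjoint_left.mp hd hxj' hxj
  · exact Set.disjoint_left.mp (bx_top_disjoint hρ k h) hxj hxj'

theorem cell_disjoint_rect {ρ τ τ' : ℝ} {k k' J : ℕ} (hρ : (2:ℝ) ^ J ≤ ρ) (hkk : k < k') :
    Disjoint (cell ρ τ k J : Set (Fin (e + 2) → ℝ)) (cell ρ τ' k' J) := by
  have hρ1 : 1 ≤ ρ := (one_le_pow₀ (by norm_num : (1:ℝ) ≤ 2)).trans hρ
  have hρ0 : 0 < ρ := by linarith
  rw [Set.disjoint_left]
  intro x hx hx'
  obtain ⟨j, hj, hxj⟩ := mem_cell.mp hx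
  obtain ⟨j', hj', hxj'⟩ := mem_cell.mp hx'
  have hd : Disjoint (bx (top ρ τ k j)) (bx (top ρ τ' k' j')) := by
    apply bx_disjoint (i := Fin.succ 0)
    rw [top_succ, top_succ, if_pos rfl, if_pos rfl, div_div, ← pow_succ]
    have h1 : ρ ^ k / 2 ^ (j 0) ≤ ρ ^ k := div_le_self (by positivity)
      (one_le_pow₀ (by norm_num))
    refine h1.trans ?_
    rw [le_div_iff₀ (by positivity)]
    have h2 : (2:ℝ) ^ (j' 0 + 1) ≤ ρ := by
      refine le_trans (pow_le_pow_right₀ (by norm_num) ?_) hρ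
      exact hj' 0
    calc ρ ^ k * 2 ^ (j' 0 + 1) ≤ ρ ^ k * ρ := mul_le_mul_of_nonneg_left h2 (by positivity)
      _ = ρ ^ (k + 1) := by rw [pow_succ]
      _ ≤ ρ ^ k' := pow_le_pow_right₀ hρ1 hkk
  exact Set.disjoint_left.mp hd hxj hxj'

theorem cell_pos {ρ τ : ℝ} (hρ : 0 < ρ) (hτ : 0 < τ) {k J : ℕ} {x : Fin (e + 2) → ℝ}
    (hx : x ∈ cell ρ τ k J) (i : Fin (e + 2)) : 0 < x i := by
  obtain ⟨j, hj, hxj⟩ := mem_cell.mp hx
  have h1 := (mem_bx.mp hxj i).1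
  have h2 := top_pos hρ hτ k j i
  linarith

theorem cell_prod_le {ρ τ : ℝ} (hρ : 0 < ρ) (hτ : 0 < τ) {k J : ℕ} {x : Fin (e + 2) → ℝ}
    (hx : x ∈ cell ρ τ k J) : ∏ i, x i ≤ τ := by
  have hx0 := cell_pos hρ hτ hx
  obtain ⟨j, hj, hxj⟩ := mem_cell.mp hx
  rw [← prod_top (τ := τ) hρ k j]
  exact Finset.prod_le_prod (fun i _ => (hx0 i).le) (fun i _ => (mem_bx.mp hxj i).2)

theorem cell_sep {ρ τ τ' t D : ℝ} {k k' J : ℕ} (hρ1 : 1 ≤ ρ) (ht : 0 < t) (hτ : t ≤ τ)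
    (hτ' : t ≤ τ') (hρ : 2 * D * 2 ^ ((e + 1) * J) / t ≤ ρ) (hkk : k < k')
    {x x' : Fin (e + 2) → ℝ} (hx : x ∈ cell ρ τ k J) (hx' : x' ∈ cell ρ τ' k' J) :
    D ≤ ∏ i, max (x i) (x' i) := by
  have hρ0 : 0 < ρ := by linarith
  obtain ⟨j, hj, hxj⟩ := mem_cell.mp hx
  obtain ⟨j', hj', hxj'⟩ := mem_cell.mp hx'
  rw [Fin.prod_univ_succ]
  have h0 : t / (2 * ρ ^ k) ≤ max (x 0) (x' 0) := by
    refine le_trans ?_ (le_max_left _ _)
    refine le_trans ?_ (mem_bx.mp hxj 0).1.le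
    rw [top_zero, div_div, mul_comm (ρ ^ k) 2]
    apply div_le_div_of_nonneg_right _ (by positivity)
    have h1 : (1:ℝ) ≤ 2 ^ (∑ i, j i) := one_le_pow₀ (by norm_num)
    calc t = t * 1 := (mul_one _).symm
      _ ≤ τ * 2 ^ (∑ i, j i) := mul_le_mul hτ h1 (by norm_num) (by linarith)
  have h1 : ∀ i : Fin (e + 1), (if i = 0 then ρ ^ k' else 1) / 2 ^ J
      ≤ max (x i.succ) (x' i.succ) := by
    intro i
    have hJ : ∀ a : ℕ, a < J → (2:ℝ) ^ (a + 1) ≤ 2 ^ J := fun a ha =>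
      pow_le_pow_right₀ (by norm_num) ha
    by_cases hi : i = 0
    · rw [if_pos hi]
      refine le_trans ?_ (le_max_right _ _)
      refine le_trans ?_ (mem_bx.mp hxj' i.succ).1.le
      rw [top_succ, if_pos hi, div_div, ← pow_succ]
      exact div_le_div_of_nonneg_left (by positivity) (by positivity) (hJ _ (hj' i))
    · rw [if_neg hi]
      refine le_trans ?_ (le_max_left _ _)
      refine le_trans ?_ (mem_bx.mp hxj i.succ).1.le
      rw [top_succ, if_neg hi, div_div, ← pow_succ]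
      exact div_le_div_of_nonneg_left (by positivity) (by positivity) (hJ _ (hj i))
  have h2 : ρ ^ k' / 2 ^ ((e + 1) * J) ≤ ∏ i : Fin (e + 1), max (x i.succ) (x' i.succ) := by
    have h3 : ∏ i : Fin (e + 1), ((if i = 0 then ρ ^ k' else 1) / (2:ℝ) ^ J)
        ≤ ∏ i : Fin (e + 1), max (x i.succ) (x' i.succ) := by
      apply Finset.prod_le_prod
      · intro i _
        split_ifs <;> positivity
      · intro i _
        exact h1 i
    rw [Finset.prod_div_distrib, prod_ite_zero, Finset.prod_const, Finset.card_univ,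
      Fintype.card_fin, ← pow_mul, mul_comm J] at h3
    exact h3
  refine le_trans ?_ (mul_le_mul h0 h2 (by positivity) (le_trans (by positivity) h0))
  rw [div_mul_div_comm, le_div_iff₀ (by positivity)]
  rw [div_le_iff₀ ht] at hρ
  have h3 : ρ ^ (k + 1) ≤ ρ ^ k' := pow_le_pow_right₀ hρ1 hkk
  calc D * (2 * ρ ^ k * 2 ^ ((e + 1) * J)) = (2 * D * 2 ^ ((e + 1) * J)) * ρ ^ k := by ring
    _ ≤ (ρ * t) * ρ ^ k := mul_le_mul_of_nonneg_right hρ (by positivity)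
    _ = t * ρ ^ (k + 1) := by ring
    _ ≤ t * ρ ^ k' := mul_le_mul_of_nonneg_left h3 ht.le

/-- lower bound for the probability of a strip -/
theorem real_cell_ge {P : Measure (Fin (e + 2) → ℝ)} [IsProbabilityMeasure P] {π ρ τ : ℝ}
    {k J : ℕ} (hρ : 0 < ρ) (hτ : 0 < τ) (hτJ : τ * 2 ^ ((e + 1) * J) ≤ 1)
    (hP : ∀ b : Fin (e + 2) → ℝ, (∀ i, 0 < b i) → (∀ i, b i ≤ rect ρ k i) →
      π * ((∏ i, b i) / 2 ^ (e + 2)) ≤ P.real (bx b)) :
    (J:ℝ) ^ (e + 1) * (π * (τ / 2 ^ (e + 2))) ≤ P.real (cell ρ τ k J) := by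
  unfold cell
  rw [measureReal_biUnion_finset]
  · have hterm : ∀ j ∈ Fintype.piFinset (fun _ : Fin (e + 1) => Finset.range J),
        π * (τ / 2 ^ (e + 2)) ≤ P.real (bx (top ρ τ k j)) := by
      intro j hj
      rw [Fintype.mem_piFinset] at hj
      have h1 := hP (top ρ τ k j) (top_pos hρ hτ k j)
        (top_le_rect hρ hτ.le k (fun i => Finset.mem_range.mp (hj i)) hτJ)
      rwa [prod_top hρ] at h1
    refine le_trans ?_ (Finset.sum_le_sum hterm)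
    rw [Finset.sum_const, Fintype.card_piFinset, nsmul_eq_mul]
    simp
  · intro j _ j' _ hne
    exact bx_top_disjoint hρ k hne
  · intro j _
    exact measurableSet_bx _

end Pool.Agent.Helper96.SMU
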