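import Mathlib
import Pool.Agent.Helper96.SMU.Cells

set_option autoImplicit false
set_option linter.unusedVariables false
open MeasureTheory
open scoped ENNReal

namespace Pool.Agent.Helper96.SMU

variable {e : ℕ}

theorem half_sub_exp {y p : ℝ} {n : ℕ} (hy0 : 0 ≤ y) (hy1 : y ≤ 1) (hp1 : p ≤ 1)
    (hyp : y ≤ n * p) : y / 2 ≤ 1 - (1 - p) ^ n := by
  have h1 : (1 - p) ^ n ≤ Real.exp (-y) := by
    have h2 : 1 - p ≤ Real.exp (-p) := by
      have := Real.add_one_le_exp (-p)
      linarith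
    calc (1 - p) ^ n ≤ (Real.exp (-p)) ^ n := pow_le_pow_left₀ (by linarith) h2 n
      _ = Real.exp (-(n * p)) := by rw [← Real.exp_nat_mul]; ring_nf
      _ ≤ Real.exp (-y) := Real.exp_le_exp.mpr (by linarith)
  have h3 : Real.exp (-y) ≤ 1 - y / 2 := by
    rw [Real.exp_neg]
    have h4 : y + 1 ≤ Real.exp y := Real.add_one_le_exp y
    have h5 : (Real.exp y)⁻¹ ≤ (y + 1)⁻¹ := inv_anti₀ (by linarith) h4
    refine h5.trans ?_
    rw [inv_le_iff_one_le_mul₀ (by linarith)]
    nlinarith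
  linarith

theorem geom_sum_le (L : Finset ℕ) {m : ℕ} (hm : ∀ l ∈ L, l ≤ m) :
    ∑ l ∈ L, (2:ℝ) ^ l ≤ 2 * 2 ^ m := by
  have h1 : L ⊆ Finset.range (m + 1) := fun l hl => Finset.mem_range.mpr (Nat.lt_succ_of_le (hm l hl))
  have h2 : ∑ l ∈ L, (2:ℝ) ^ l ≤ ∑ l ∈ Finset.range (m + 1), (2:ℝ) ^ l :=
    Finset.sum_le_sum_of_subset_of_nonneg h1 (fun _ _ _ => by positivity)
  rw [geom_sum_eq (by norm_num)] at h2
  have h3 : ((2:ℝ) ^ (m + 1) - 1) / (2 - 1) = 2 * 2 ^ m - 1 := by ring
  rw [h3] at h2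
  linarith

/-- one block of well separated rectangles -/
theorem block {P : Measure (Fin (e + 2) → ℝ)} [IsProbabilityMeasure P]
    (hPo : P (orthant (e + 2))ᶜ = 0) {π ρ : ℝ} {n J Λ N : ℕ} (hn : 0 < n) (hJ : 0 < J)
    (hΛ : 0 < Λ) (hN : 0 < N) (hπ : 0 < π) (τ : ℕ → ℝ)
    (hτ : ∀ l, τ l = 1 / (2 ^ l * (n * π * J ^ (e + 1))))
    (hτJ : τ 0 * 2 ^ ((e + 1) * J) ≤ 1) (hρJ : (2:ℝ) ^ J ≤ ρ)
    (hρ : 2 * N * 2 ^ ((e + 1) * J) / τ Λ ≤ ρ)
    (hP : ∀ k < N, ∀ b : Fin (e + 2) → ℝ, (∀ i, 0 < b i) → (∀ i, b i ≤ rect ρ k i) →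
      π * ((∏ i, b i) / 2 ^ (e + 2)) ≤ P.real (bx b)) :
    ∃ A : Set (Fin n → Fin (e + 2) → ℝ), MeasurableSet A ∧
      (Measure.pi (fun _ : Fin n => P)).real Aᶜ ≤ 4 * 2 ^ Λ / (N * Λ / 2 ^ (e + 3)) ∧
      (∀ x ∈ A, ∀ j, x j ∈ orthant (e + 2)) ∧
      ∀ x ∈ A, ∀ G, IsMLE x G →
        ENNReal.ofReal (π * N * J ^ (e + 1) * Λ / 2 ^ (e + 7)) ≤ atOrigin G + 1 := by
  classical
  have hnR : (0:ℝ) < n := by exact_mod_cast hn
  have hJR : (0:ℝ) < J := by exact_mod_cast hJ
  have hΛR : (0:ℝ) < Λ := by exact_mod_cast hΛ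
  have hNR : (0:ℝ) < N := by exact_mod_cast hN
  have hτpos : ∀ l, 0 < τ l := fun l => by rw [hτ]; positivity
  have hρ1 : 1 ≤ ρ := (one_le_pow₀ (by norm_num : (1:ℝ) ≤ 2)).trans hρJ
  have hρ0 : 0 < ρ := by linarith
  have hτanti : ∀ l l', l ≤ l' → τ l' ≤ τ l := by
    intro l l' hll
    rw [hτ, hτ]
    apply div_le_div_of_nonneg_left (by norm_num) (by positivity)
    apply mul_le_mul_of_nonneg_right _ (by positivity)
    exact pow_le_pow_right₀ (by norm_num) hll
  have hτhalf : ∀ l l', l < l' → τ l' ≤ τ l / 2 := by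
    intro l l' hll
    refine (hτanti (l + 1) l' hll).trans (le_of_eq ?_)
    rw [hτ, hτ]
    field_simp
    ring
  have hτJ' : ∀ l, τ l * 2 ^ ((e + 1) * J) ≤ 1 := fun l =>
    (mul_le_mul_of_nonneg_right (hτanti 0 l (Nat.zero_le _)) (by positivity)).trans hτJ
  -- cells
  set C : ℕ × ℕ → Set (Fin (e + 2) → ℝ) := fun c => cell ρ (τ c.2) c.1 J with hC
  set I : Finset (ℕ × ℕ) := Finset.range N ×ˢ Finset.range Λ with hI
  set M : ℕ × ℕ → Set (Fin n → Fin (e + 2) → ℝ) := fun c => miss n (C c) with hM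
  have hCm : ∀ c, MeasurableSet (C c) := fun c => measurableSet_cell _ _ _ _
  have hMm : ∀ c, MeasurableSet (M c) := fun c => measurableSet_miss (hCm c)
  have hCd : ∀ c c', c ≠ c' → Disjoint (C c) (C c') := by
    rintro ⟨k, l⟩ ⟨k', l'⟩ hne
    rcases lt_trichotomy k k' with h | h | h
    · exact cell_disjoint_rect hρJ h
    · subst h
      have hll : l ≠ l' := fun h => hne (by rw [h])
      rcases lt_or_gt_of_ne hll with h | h
      · exact cell_disjoint_level hρ0 k J (hτhalf l l' h)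
      · exact (cell_disjoint_level hρ0 k J (hτhalf l' l h)).symm
    · exact (cell_disjoint_rect hρJ h).symm
  have hPc : ∀ c ∈ I, 1 / (2 ^ c.2 * 2 ^ (e + 2)) ≤ n * P.real (C c) := by
    rintro ⟨k, l⟩ hc
    rw [hI, Finset.mem_product, Finset.mem_range, Finset.mem_range] at hc
    have h1 := real_cell_ge (P := P) (π := π) (k := k) (J := J) hρ0 (hτpos l) (hτJ' l) (hP k hc.1)
    have h2 : n * ((J:ℝ) ^ (e + 1) * (π * (τ l / 2 ^ (e + 2)))) = 1 / (2 ^ l * 2 ^ (e + 2)) := by
      rw [hτ]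
      field_simp
    simp only
    rw [← h2]
    exact mul_le_mul_of_nonneg_left h1 hnR.le
  have hmiss : ∀ c ∈ I, 1 / (2 ^ c.2 * 2 ^ (e + 3)) ≤
      1 - (Measure.pi (fun _ : Fin n => P)).real (M c) := by
    intro c hc
    rw [hM]
    simp only
    rw [real_miss (hCm c)]
    have h1 := half_sub_exp (y := 1 / (2 ^ c.2 * 2 ^ (e + 2))) (p := P.real (C c)) (n := n)
      (by positivity) (by
        rw [div_le_one (by positivity)]
        have h2 : (1:ℝ) ≤ 2 ^ c.2 := one_le_pow₀ (by norm_num)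
        have h3 : (1:ℝ) ≤ 2 ^ (e + 2) := one_le_pow₀ (by norm_num)
        nlinarith) measureReal_le_one (hPc c hc)
    refine le_trans (le_of_eq ?_) h1
    rw [div_div]
    congr 1
    ring
  set w : ℕ × ℕ → ℝ := fun c => 2 ^ c.2 with hw
  have hsm := second_moment (μ := Measure.pi (fun _ : Fin n => P)) I M (fun c _ => hMm c) w
    (W := 2 ^ Λ) (e := N * Λ / 2 ^ (e + 3)) (by
      rintro ⟨k, l⟩ hc
      rw [hI, Finset.mem_product, Finset.mem_range, Finset.mem_range] at hc
      exact ⟨by rw [hw]; positivity, pow_le_pow_right₀ (by norm_num) hc.2.le⟩) (by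
      intro c _ c' _ hne
      exact real_miss_inter (hCm c) (hCm c') (hCd c c' hne)) (by
      have h1 : ∀ c ∈ I, 1 / (2:ℝ) ^ (e + 3) ≤
          w c * (1 - (Measure.pi (fun _ : Fin n => P)).real (M c)) := by
        intro c hc
        have h2 := mul_le_mul_of_nonneg_left (hmiss c hc) (show 0 ≤ w c by rw [hw]; positivity)
        refine le_trans (le_of_eq ?_) h2
        rw [hw]
        field_simp
      refine le_trans (le_of_eq ?_) (Finset.sum_le_sum h1)
      rw [Finset.sum_const, hI, Finset.card_product, Finset.card_range, Finset.card_range,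
        nsmul_eq_mul]
      push_cast
      ring) (by positivity)
  -- the event
  set B : Set (Fin n → Fin (e + 2) → ℝ) := {x | ∑ c ∈ I, w c *
    (1 - (M c).indicator (fun _ => (1:ℝ)) x) < N * Λ / 2 ^ (e + 3) / 2} with hB
  have hBm : MeasurableSet B := by
    apply measurableSet_lt _ measurable_const
    apply Finset.measurable_sum
    intro c _
    exact (measurable_const.sub (measurable_const.indicator (hMm c))).const_mul _
  set O : Set (Fin n → Fin (e + 2) → ℝ) := miss n (orthant (e + 2))ᶜ with hO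
  have hOm : MeasurableSet O := measurableSet_miss (measurableSet_orthant _).compl
  have hO1 : (Measure.pi (fun _ : Fin n => P)).real O = 1 := by
    rw [hO, real_miss (measurableSet_orthant _).compl]
    have : P.real (orthant (e + 2))ᶜ = 0 := by
      rw [Measure.real, hPo]; rfl
    rw [this]
    simp
  refine ⟨O ∩ Bᶜ, hOm.inter hBm.compl, ?_, ?_, ?_⟩
  · rw [Set.compl_inter, compl_compl]
    refine (measureReal_union_le _ _).trans ?_
    have h1 : (Measure.pi (fun _ : Fin n => P)).real Oᶜ = 0 := by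
      rw [probReal_compl_eq_one_sub hOm, hO1]; ring
    rw [h1, zero_add]
    exact hsm
  · rintro x ⟨hxO, _⟩ j
    have := hxO j
    rw [Set.mem_compl_iff, not_not] at this
    exact this
  · rintro x ⟨hxO, hxB⟩ G hG
    have hxo : ∀ j, x j ∈ orthant (e + 2) := by
      intro j
      have := hxO j
      rw [Set.mem_compl_iff, not_not] at this
      exact this
    rw [Set.mem_compl_iff, hB, Set.mem_ofPred_eq, not_lt] at hxB
    -- hit levels
    set H : ℕ → Finset ℕ := fun k => (Finset.range Λ).filter (fun l => x ∉ M (k, l)) with hH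
    set K : Finset ℕ := (Finset.range N).filter (fun k => (H k).Nonempty) with hK
    have hsum : ∑ c ∈ I, w c * (1 - (M c).indicator (fun _ => (1:ℝ)) x)
        = ∑ k ∈ K, ∑ l ∈ H k, (2:ℝ) ^ l := by
      rw [hI, Finset.sum_product]
      have h1 : ∀ k ∈ Finset.range N, ∑ l ∈ Finset.range Λ, w (k, l) *
          (1 - (M (k, l)).indicator (fun _ => (1:ℝ)) x) = ∑ l ∈ H k, (2:ℝ) ^ l := by
        intro k _
        rw [hH]
        simp only
        rw [Finset.sum_filter]
        apply Finset.sum_congr rfl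
        intro l _
        by_cases hx : x ∈ M (k, l)
        · simp [hx]
        · simp [hx, hw]
      rw [Finset.sum_congr rfl h1, hK, Finset.sum_filter]
      apply Finset.sum_congr rfl
      intro k _
      by_cases hne : (H k).Nonempty
      · rw [if_pos hne]
      · rw [if_neg hne]
        rw [Finset.not_nonempty_iff_eq_empty] at hne
        rw [hne, Finset.sum_empty]
    have hchoose : ∀ k, ∃ (l : ℕ) (j : Fin n), k ∈ K → (l < Λ ∧ x j ∈ C (k, l) ∧
        ∀ l' ∈ H k, l' ≤ l) := by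
      intro k
      by_cases hk : k ∈ K
      · have hne : (H k).Nonempty := (Finset.mem_filter.mp hk).2
        have hmax := Finset.max'_mem (H k) hne
        have h1 := Finset.mem_filter.mp hmax
        have h2 : ∃ j, x j ∈ C (k, (H k).max' hne) := by
          by_contra hcon
          push Not at hcon
          exact h1.2 hcon
        obtain ⟨j, hj⟩ := h2
        exact ⟨(H k).max' hne, j, fun _ => ⟨Finset.mem_range.mp h1.1, hj,
          fun l' hl' => Finset.le_max' _ _ hl'⟩⟩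
      · exact ⟨0, ⟨0, hn⟩, fun h => absurd h hk⟩
    choose lv z hlz using hchoose
    have hsep : ∀ k ∈ K, ∀ k' ∈ K, k ≠ k' → (N:ℝ) ≤ ∏ a, max (x (z k) a) (x (z k') a) := by
      intro k hk k' hk' hne
      have h1 := hlz k hk
      have h2 := hlz k' hk'
      have t1 := hτanti _ _ h1.1.le
      have t2 := hτanti _ _ h2.1.le
      rcases lt_or_gt_of_ne hne with h | h
      · exact cell_sep hρ1 (hτpos Λ) t1 t2 hρ h h1.2.1 h2.2.1
      · have h3 := cell_sep hρ1 (hτpos Λ) t2 t1 hρ h h2.2.1 h1.2.1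
        refine h3.trans (le_of_eq ?_)
        apply Finset.prod_congr rfl
        intro a _
        exact max_comm _ _
    have hdet := hG.sum_le hxo K z hNR hsep
    have hone : ∀ k ∈ K, ENNReal.ofReal (π * J ^ (e + 1) / 4 * 2 ^ (lv k)) ≤
        ENNReal.ofReal (1 / (4 * n * ∏ a, x (z k) a)) := by
      intro k hk
      have h1 := hlz k hk
      have h2 : ∏ a, x (z k) a ≤ τ (lv k) := cell_prod_le hρ0 (hτpos _) h1.2.1
      have h3 : 0 < ∏ a, x (z k) a :=
        Finset.prod_pos (fun a _ => cell_pos hρ0 (hτpos _) h1.2.1 a)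
      apply ENNReal.ofReal_le_ofReal
      calc π * J ^ (e + 1) / 4 * 2 ^ (lv k) = 1 / (4 * n * τ (lv k)) := by
            rw [hτ]; field_simp
        _ ≤ 1 / (4 * n * ∏ a, x (z k) a) := by
            apply div_le_div_of_nonneg_left (by norm_num) (by positivity)
            exact mul_le_mul_of_nonneg_left h2 (by positivity)
    have hKc : (K.card : ℝ≥0∞) * ENNReal.ofReal (N:ℝ)⁻¹ ≤ 1 := by
      have h1 : K.card ≤ N := by
        rw [hK]
        refine (Finset.card_filter_le _ _).trans ?_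
        rw [Finset.card_range]
      calc (K.card : ℝ≥0∞) * ENNReal.ofReal (N:ℝ)⁻¹
          = ENNReal.ofReal (K.card * (N:ℝ)⁻¹) := by
            rw [ENNReal.ofReal_mul (by positivity), ENNReal.ofReal_natCast]
        _ ≤ ENNReal.ofReal 1 := by
            apply ENNReal.ofReal_le_ofReal
            rw [← div_eq_mul_inv, div_le_one hNR]
            exact_mod_cast h1
        _ = 1 := ENNReal.ofReal_one
    have hfin : ENNReal.ofReal (π * N * J ^ (e + 1) * Λ / 2 ^ (e + 7)) ≤
        ∑ k ∈ K, ENNReal.ofReal (π * J ^ (e + 1) / 4 * 2 ^ (lv k)) := by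
      rw [← ENNReal.ofReal_sum_of_nonneg (fun k _ => by positivity), ← Finset.mul_sum]
      apply ENNReal.ofReal_le_ofReal
      have h1 : N * Λ / 2 ^ (e + 3) / 2 ≤ 2 * ∑ k ∈ K, (2:ℝ) ^ (lv k) := by
        refine hxB.trans ?_
        rw [hsum, Finset.mul_sum]
        apply Finset.sum_le_sum
        intro k hk
        exact geom_sum_le _ (hlz k hk).2.2
      have h2 : N * Λ / 2 ^ (e + 5) ≤ ∑ k ∈ K, (2:ℝ) ^ (lv k) := by
        have h3 : (N:ℝ) * Λ / 2 ^ (e + 5) = N * Λ / 2 ^ (e + 3) / 2 / 2 := by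
          field_simp
          ring
        rw [h3]
        linarith
      calc π * N * J ^ (e + 1) * Λ / 2 ^ (e + 7) = π * J ^ (e + 1) / 4 * (N * Λ / 2 ^ (e + 5)) := by
            field_simp
            ring
        _ ≤ π * J ^ (e + 1) / 4 * ∑ k ∈ K, (2:ℝ) ^ (lv k) :=
            mul_le_mul_of_nonneg_left h2 (by positivity)
    calc ENNReal.ofReal (π * N * J ^ (e + 1) * Λ / 2 ^ (e + 7))
        ≤ ∑ k ∈ K, ENNReal.ofReal (1 / (4 * n * ∏ a, x (z k) a)) :=
          hfin.trans (Finset.sum_le_sum hone)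
      _ ≤ atOrigin G + K.card * ENNReal.ofReal (N:ℝ)⁻¹ := hdet
      _ ≤ atOrigin G + 1 := by gcongr

end Pool.Agent.Helper96.SMU
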