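import Mathlib
import Pool.Agent.Helper96.SMU.Fenchel

set_option autoImplicit false
set_option linter.unusedVariables false
open MeasureTheory
open scoped ENNReal

namespace Pool.Agent.Helper96.SMU

variable {d n : ℕ}

theorem smu_sum_dirac {ι : Type*} [Fintype ι] (c : ι → ℝ≥0∞) (y : ι → Fin d → ℝ)
    (x : Fin d → ℝ) [DecidablePred (fun t => ∀ i, x i ≤ y t i)] :
    smu (∑ t, c t • Measure.dirac (y t)) x =
      ∑ t, if ∀ i, x i ≤ y t i then c t * ENNReal.ofReal (∏ i, y t i)⁻¹ else 0 := by
  unfold smu
  rw [← lintegral_indicator (measurableSet_ge x), lintegral_finsetSum_measure]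
  apply Finset.sum_congr rfl
  intro t _
  rw [lintegral_smul_measure, lintegral_dirac' _
    (measurable_inv_prod.indicator (measurableSet_ge x))]
  by_cases h : ∀ i, x i ≤ y t i
  · rw [if_pos h, Set.indicator_of_mem (show y t ∈ {y | ∀ i, x i ≤ y i} from h), smul_eq_mul]
  · rw [if_neg h, Set.indicator_of_notMem (show y t ∉ {y | ∀ i, x i ≤ y i} from h)]
    simp

/-- a maximum likelihood estimator exists -/
theorem exists_isMLE (x : Fin n → Fin d → ℝ) (hx : ∀ j, x j ∈ orthant d) :
    ∃ G, IsMLE x G := by
  classical
  rcases Nat.eq_zero_or_pos n with hn | hn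
  · subst hn
    refine ⟨Measure.dirac (fun _ => 1), isMixing_dirac (fun _ => one_pos), ?_⟩
    intro H _
    unfold logLik
    simp
  -- joins of subsets of the sample
  let ι := {T : Finset (Fin n) // T.Nonempty}
  have hnonempty : (Finset.univ : Finset (Fin n)).Nonempty := ⟨⟨0, hn⟩, Finset.mem_univ _⟩
  let t₀ : ι := ⟨Finset.univ, hnonempty⟩
  let y : ι → Fin d → ℝ := fun T i => T.1.sup' T.2 (fun j => x j i)
  have hxy : ∀ (T : ι) (j : Fin n), j ∈ T.1 → ∀ i, x j i ≤ y T i := by
    intro T j hj i
    exact Finset.le_sup' (fun j => x j i) hj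
  have hy : ∀ T : ι, y T ∈ orthant d := by
    intro T i
    obtain ⟨j, hj⟩ := T.2
    exact lt_of_lt_of_le (hx j i) (hxy T j hj i)
  have hypos : ∀ T : ι, 0 < ∏ i, y T i := fun T => Finset.prod_pos (fun i _ => hy T i)
  let f : (ι → ℝ) → Fin n → ℝ := fun w j =>
    ∑ T, if ∀ i, x j i ≤ y T i then w T * (∏ i, y T i)⁻¹ else 0
  let F : (ι → ℝ) → ℝ := fun w => ∏ j, f w j
  have hf0 : ∀ w : ι → ℝ, (∀ T, 0 ≤ w T) → ∀ j, 0 ≤ f w j := by
    intro w hw j
    apply Finset.sum_nonneg
    intro T _
    split_ifs
    · exact mul_nonneg (hw T) (inv_nonneg.mpr (hypos T).le)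
    · exact le_rfl
  have hFc : Continuous F := by
    apply continuous_finsetProd
    intro j _
    apply continuous_finsetSum
    intro T _
    split_ifs
    · exact (continuous_apply T).mul continuous_const
    · exact continuous_const
  obtain ⟨w, hw, hmax⟩ := (isCompact_stdSimplex ℝ ι).exists_isMaxOn
    ⟨Pi.single t₀ 1, single_mem_stdSimplex ℝ t₀⟩ hFc.continuousOn
  let G : Measure (Fin d → ℝ) := ∑ T, ENNReal.ofReal (w T) • Measure.dirac (y T)
  have hGval : ∀ j, smu G (x j) = ENNReal.ofReal (f w j) := by
    intro j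
    rw [smu_sum_dirac]
    simp only [f]
    rw [ENNReal.ofReal_sum_of_nonneg]
    · apply Finset.sum_congr rfl
      intro T _
      split_ifs
      · rw [ENNReal.ofReal_mul (hw.1 T)]
      · rw [ENNReal.ofReal_zero]
    · intro T _
      split_ifs
      · exact mul_nonneg (hw.1 T) (inv_nonneg.mpr (hypos T).le)
      · exact le_rfl
  refine ⟨G, ⟨?_, ?_⟩, ?_⟩
  · constructor
    simp only [G]
    rw [Measure.finsetSum_apply]
    simp only [Measure.smul_apply, measure_univ, smul_eq_mul, mul_one]
    rw [← ENNReal.ofReal_sum_of_nonneg (fun T _ => hw.1 T), hw.2, ENNReal.ofReal_one]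
  · simp only [G]
    rw [Measure.finsetSum_apply]
    apply Finset.sum_eq_zero
    intro T _
    rw [Measure.smul_apply, (isMixing_dirac (hy T)).2]
    simp
  · intro H hH
    have := hH.1
    rw [logLik_eq, logLik_eq, ENNReal.log_le_log_iff]
    -- group the mass of `H`
    let E : Finset (Fin n) → Set (Fin d → ℝ) := fun T =>
      {z | ∀ j, j ∈ T ↔ ∀ i, x j i ≤ z i}
    have hEm : ∀ T, MeasurableSet (E T) := by
      intro T
      have : E T = ⋂ j, {z : Fin d → ℝ | j ∈ T ↔ ∀ i, x j i ≤ z i} := by
        ext z; simp [E]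
      rw [this]
      apply MeasurableSet.iInter
      intro j
      by_cases hj : j ∈ T
      · simp only [hj, true_iff]
        exact measurableSet_ge (x j)
      · simp only [hj, false_iff]
        exact (measurableSet_ge (x j)).compl
    have hEd : ∀ T T', T ≠ T' → Disjoint (E T) (E T') := by
      intro T T' hne
      rw [Set.disjoint_left]
      intro z hz hz'
      apply hne
      ext j
      rw [hz j, hz' j]
    let v : ι → ℝ := fun T => H.real (E T.1) + if T = t₀ then H.real (E ∅) else 0
    have hv0 : ∀ T, H.real (E T.1) ≤ v T := by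
      intro T
      simp only [v]
      split_ifs
      · have : 0 ≤ H.real (E ∅) := measureReal_nonneg
        linarith
      · simp
    have hv1 : ∀ T, 0 ≤ v T := fun T => le_trans measureReal_nonneg (hv0 T)
    have hcover : (⋃ T ∈ (Finset.univ : Finset (Finset (Fin n))), E T) = Set.univ := by
      ext z
      simp only [Set.mem_iUnion, Finset.mem_univ, exists_true_left, Set.mem_univ, iff_true]
      exact ⟨Finset.univ.filter (fun j => ∀ i, x j i ≤ z i), fun j => by simp⟩
    have hvsum : ∑ T, v T = 1 := by
      have h1 : ∑ T : Finset (Fin n), H.real (E T) = 1 := by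
        rw [← measureReal_biUnion_finset (fun T _ T' _ hne => hEd T T' hne) (fun T _ => hEm T),
          hcover]
        exact probReal_univ
      have h2 : ∑ T : Finset (Fin n), H.real (E T) =
          H.real (E ∅) + ∑ T : ι, H.real (E T.1) := by
        rw [← Finset.add_sum_erase _ _ (Finset.mem_univ (∅ : Finset (Fin n)))]
        congr 1
        refine Finset.sum_bij' (fun T hT => (⟨T, Finset.nonempty_iff_ne_empty.mpr
          (Finset.ne_of_mem_erase hT)⟩ : ι)) (fun T _ => T.1) ?_ ?_ ?_ ?_ ?_
        · intro T _; exact Finset.mem_univ _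
        · intro T _
          exact Finset.mem_erase.mpr ⟨Finset.nonempty_iff_ne_empty.mp T.2, Finset.mem_univ _⟩
        · intro T _; rfl
        · intro T _; rfl
        · intro T _; rfl
      simp only [v]
      rw [Finset.sum_add_distrib, Finset.sum_ite_eq']
      simp only [Finset.mem_univ, if_true]
      linarith
    have hvS : v ∈ stdSimplex ℝ ι := ⟨hv1, hvsum⟩
    have hHle : ∀ j, smu H (x j) ≤ ENNReal.ofReal (f v j) := by
      intro j
      have h1 : smu H (x j) ≤ ∑ T : ι, if ∀ i, x j i ≤ y T i then
          ENNReal.ofReal (v T * (∏ i, y T i)⁻¹) else 0 := by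
        unfold smu
        have hsub : {z : Fin d → ℝ | ∀ i, x j i ≤ z i} ⊆
            ⋃ T ∈ (Finset.univ : Finset ι).filter (fun T => j ∈ T.1), E T.1 := by
          intro z hz
          simp only [Set.mem_iUnion, Finset.mem_filter, Finset.mem_univ, true_and, exists_prop]
          refine ⟨⟨Finset.univ.filter (fun j => ∀ i, x j i ≤ z i), ⟨j, ?_⟩⟩, ?_, ?_⟩
          · simp only [Finset.mem_filter, Finset.mem_univ, true_and]; exact hz
          · simp only [Finset.mem_filter, Finset.mem_univ, true_and]; exact hz
          · intro j'; simp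
        refine (lintegral_mono_set hsub).trans ?_
        rw [lintegral_biUnion_finset (fun T _ T' _ hne => hEd _ _ (fun h => hne (Subtype.ext h)))
          (fun T _ => hEm T.1), Finset.sum_filter]
        apply Finset.sum_le_sum
        intro T _
        by_cases hj : j ∈ T.1
        · rw [if_pos hj, if_pos (hxy T j hj)]
          calc ∫⁻ z in E T.1, ENNReal.ofReal (∏ i, z i)⁻¹ ∂H
              ≤ ∫⁻ z in E T.1, ENNReal.ofReal (∏ i, y T i)⁻¹ ∂H := by
                apply setLIntegral_mono measurable_const
                intro z hz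
                apply ENNReal.ofReal_le_ofReal
                apply inv_anti₀ (hypos T)
                apply Finset.prod_le_prod (fun i _ => (hy T i).le)
                intro i _
                exact Finset.sup'_le _ _ (fun j' hj' => (hz j').mp hj' i)
            _ = ENNReal.ofReal (∏ i, y T i)⁻¹ * H (E T.1) := by rw [setLIntegral_const]
            _ ≤ ENNReal.ofReal (v T * (∏ i, y T i)⁻¹) := by
                rw [mul_comm, ENNReal.ofReal_mul (hv1 T)]
                gcongr
                rw [← ENNReal.ofReal_toReal (measure_ne_top H (E T.1))]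
                exact ENNReal.ofReal_le_ofReal (hv0 T)
        · rw [if_neg hj]
          exact bot_le
      refine h1.trans (le_of_eq ?_)
      simp only [f]
      rw [ENNReal.ofReal_sum_of_nonneg]
      · apply Finset.sum_congr rfl
        intro T _
        split_ifs
        · rfl
        · rw [ENNReal.ofReal_zero]
      · intro T _
        split_ifs
        · exact mul_nonneg (hv1 T) (inv_nonneg.mpr (hypos T).le)
        · exact le_rfl
    calc ∏ j, smu H (x j) ≤ ∏ j, ENNReal.ofReal (f v j) :=
          Finset.prod_le_prod' (fun j _ => hHle j)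
      _ = ENNReal.ofReal (F v) := by
          rw [← ENNReal.ofReal_prod_of_nonneg (fun j _ => hf0 v hv1 j)]
      _ ≤ ENNReal.ofReal (F w) := ENNReal.ofReal_le_ofReal (hmax hvS)
      _ = ∏ j, ENNReal.ofReal (f w j) := by
          rw [← ENNReal.ofReal_prod_of_nonneg (fun j _ => hf0 w hw.1 j)]
      _ = ∏ j, smu G (x j) := by
          apply Finset.prod_congr rfl
          intro j _
          rw [hGval]

end Pool.Agent.Helper96.SMU
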