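import Mathlib
import Pool.Agent.Helper96.SMU.Cells

set_option autoImplicit false
set_option linter.unusedVariables false
open MeasureTheory
open scoped ENNReal

namespace Pool.Agent.Helper96.SMU

variable {d : ℕ}

theorem measurableSet_le_pair : MeasurableSet {q : (Fin d → ℝ) × (Fin d → ℝ) | ∀ i, q.1 i ≤ q.2 i} := by
  have : {q : (Fin d → ℝ) × (Fin d → ℝ) | ∀ i, q.1 i ≤ q.2 i} =
      ⋂ i, {q : (Fin d → ℝ) × (Fin d → ℝ) | q.1 i ≤ q.2 i} := by
    ext q; simp
  rw [this]
  exact MeasurableSet.iInter (fun i => measurableSet_le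
    ((measurable_pi_apply i).comp measurable_fst) ((measurable_pi_apply i).comp measurable_snd))

theorem measurable_uncurry : Measurable (fun q : (Fin d → ℝ) × (Fin d → ℝ) =>
    {q : (Fin d → ℝ) × (Fin d → ℝ) | ∀ i, q.1 i ≤ q.2 i}.indicator
      (fun q => ENNReal.ofReal (∏ i, q.2 i)⁻¹) q) :=
  (measurable_inv_prod.comp measurable_snd).indicator measurableSet_le_pair

theorem smu_eq (G : Measure (Fin d → ℝ)) (x : Fin d → ℝ) :
    smu G x = ∫⁻ y, {q : (Fin d → ℝ) × (Fin d → ℝ) | ∀ i, q.1 i ≤ q.2 i}.indicator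
      (fun q => ENNReal.ofReal (∏ i, q.2 i)⁻¹) (x, y) ∂G := by
  unfold smu
  rw [← lintegral_indicator (measurableSet_ge x)]
  rfl

theorem measurable_smu (G : Measure (Fin d → ℝ)) [SFinite G] : Measurable (smu G) := by
  have : smu G = fun x => ∫⁻ y, {q : (Fin d → ℝ) × (Fin d → ℝ) | ∀ i, q.1 i ≤ q.2 i}.indicator
      (fun q => ENNReal.ofReal (∏ i, q.2 i)⁻¹) (x, y) ∂G := by
    funext x
    exact smu_eq G x
  rw [this]
  exact measurable_uncurry.lintegral_prod_right'

/-- `f_G` is a probability density -/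
theorem law_univ {G : Measure (Fin d → ℝ)} (hG : IsMixing G) : law G Set.univ = 1 := by
  have := hG.1
  unfold law
  rw [withDensity_apply _ MeasurableSet.univ, Measure.restrict_univ]
  have h1 : ∀ x, smu G x = ∫⁻ y, {q : (Fin d → ℝ) × (Fin d → ℝ) | ∀ i, q.1 i ≤ q.2 i}.indicator
      (fun q => ENNReal.ofReal (∏ i, q.2 i)⁻¹) (x, y) ∂G := smu_eq G
  simp only [h1]
  rw [lintegral_lintegral_swap measurable_uncurry.aemeasurable]
  have h2 : ∀ y ∈ orthant d, ∫⁻ x in orthant d,
      {q : (Fin d → ℝ) × (Fin d → ℝ) | ∀ i, q.1 i ≤ q.2 i}.indicator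
      (fun q => ENNReal.ofReal (∏ i, q.2 i)⁻¹) (x, y) = 1 := by
    intro y hy
    have h3 : ∀ x, {q : (Fin d → ℝ) × (Fin d → ℝ) | ∀ i, q.1 i ≤ q.2 i}.indicator
      (fun q => ENNReal.ofReal (∏ i, q.2 i)⁻¹) (x, y) =
      {x : Fin d → ℝ | ∀ i, x i ≤ y i}.indicator (fun _ => ENNReal.ofReal (∏ i, y i)⁻¹) x := by
      intro x; rfl
    simp only [h3]
    have hms : MeasurableSet {x : Fin d → ℝ | ∀ i, x i ≤ y i} := by
      have : {x : Fin d → ℝ | ∀ i, x i ≤ y i} = ⋂ i, {x : Fin d → ℝ | x i ≤ y i} := by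
        ext x; simp
      rw [this]
      exact MeasurableSet.iInter (fun i => measurableSet_le (measurable_pi_apply i)
        measurable_const)
    rw [lintegral_indicator hms, setLIntegral_const, Measure.restrict_apply hms]
    have h4 : {x : Fin d → ℝ | ∀ i, x i ≤ y i} ∩ orthant d =
        Set.pi Set.univ (fun i => Set.Ioc 0 (y i)) := by
      ext x
      simp only [orthant, Set.mem_inter_iff, Set.mem_ofPred_eq, Set.mem_pi, Set.mem_univ,
        true_implies, Set.mem_Ioc]
      exact ⟨fun h i => ⟨h.2 i, h.1 i⟩, fun h => ⟨fun i => (h i).2, fun i => (h i).1⟩⟩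
    rw [h4, Real.volume_pi_Ioc, ← ENNReal.ofReal_prod_of_nonneg (fun i _ => by
      simpa using (hy i).le)]
    have hpos : 0 < ∏ i, y i := Finset.prod_pos (fun i _ => hy i)
    simp only [sub_zero]
    rw [← ENNReal.ofReal_mul (inv_nonneg.mpr hpos.le), inv_mul_cancel₀ hpos.ne',
      ENNReal.ofReal_one]
  have h5 : ∀ᵐ y ∂G, y ∈ orthant d := by
    rw [ae_iff]
    exact hG.2
  rw [lintegral_congr_ae (h5.mono h2)]
  simp

/-- mass of a box under the law -/
theorem law_bx_ge {G : Measure (Fin d → ℝ)} {y : Fin d → ℝ} {c : ℝ}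
    (hc : ENNReal.ofReal c • Measure.dirac y ≤ G) (hy1 : ∏ i, y i = 1) {b : Fin d → ℝ}
    (hb : ∀ i, 0 < b i) (hby : ∀ i, b i ≤ y i) :
    ENNReal.ofReal c * ENNReal.ofReal ((∏ i, b i) / 2 ^ d) ≤ law G (bx b) := by
  unfold law
  rw [withDensity_apply _ (measurableSet_bx b), Measure.restrict_restrict (measurableSet_bx b)]
  have hsub : bx b ∩ orthant d = bx b := by
    apply Set.inter_eq_left.mpr
    intro x hx i
    have h1 := (mem_bx.mp hx i).1
    have h2 := hb i
    linarith
  rw [hsub, ← vol_bx (fun i => (hb i).le), ← setLIntegral_const]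
  apply setLIntegral_mono' (measurableSet_bx b)
  intro x hx
  have h1 : ∀ i, x i ≤ y i := fun i => (mem_bx.mp hx i).2.trans (hby i)
  have h2 : smu (ENNReal.ofReal c • Measure.dirac y) x ≤ smu G x := by
    unfold smu
    exact lintegral_mono' (Measure.restrict_mono_measure hc _) le_rfl
  refine le_trans (le_of_eq ?_) h2
  have h3 := smu_add_smul (ENNReal.ofReal c) 0 (Measure.dirac y) (Measure.dirac y) x
  rw [zero_smul, add_zero, zero_mul, add_zero] at h3
  rw [h3, smu_dirac y x h1, hy1]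
  simp

theorem law_orthant (G : Measure (Fin d → ℝ)) : law G (orthant d)ᶜ = 0 := by
  unfold law
  rw [withDensity_apply _ (measurableSet_orthant d).compl,
    Measure.restrict_restrict (measurableSet_orthant d).compl, Set.compl_inter_self]
  simp

end Pool.Agent.Helper96.SMU
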