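import Mathlib
import Pool.Agent.Helper96.SMU.Law
import Pool.Agent.Helper96.SMU.Block
import Pool.Agent.Helper96.SMU.Exist

set_option autoImplicit false
set_option linter.unusedVariables false
open MeasureTheory Filter Topology
open scoped ENNReal

namespace Pool.Agent.Helper96.SMU

variable {e : ℕ}

/-- the mixing distribution: geometric weights over blocks, uniform in each block -/
noncomputable def mix (ρ : ℕ → ℝ) (N : ℕ → ℕ) : Measure (Fin (e + 2) → ℝ) :=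
  Measure.sum (fun m => (2⁻¹ : ℝ≥0∞) ^ (m + 1) •
    ∑ k ∈ Finset.range (N m), (N m : ℝ≥0∞)⁻¹ • Measure.dirac (rect (ρ m) k))

theorem tsum_half : ∑' m : ℕ, (2⁻¹ : ℝ≥0∞) ^ (m + 1) = 1 := by
  rw [ENNReal.tsum_geometric_add_one, ENNReal.one_sub_inv_two, inv_inv]
  exact ENNReal.inv_mul_cancel (by norm_num) (by norm_num)

theorem sum_inv_const {N : ℕ} (hN : 0 < N) :
    ∑ _k ∈ Finset.range N, (N : ℝ≥0∞)⁻¹ * 1 = 1 := by
  rw [Finset.sum_const, Finset.card_range, nsmul_eq_mul, mul_one]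
  exact ENNReal.mul_inv_cancel (by exact_mod_cast hN.ne') (ENNReal.natCast_ne_top N)

theorem mix_univ {ρ : ℕ → ℝ} {N : ℕ → ℕ} (hN : ∀ m, 0 < N m) :
    (mix ρ N : Measure (Fin (e + 2) → ℝ)) Set.univ = 1 := by
  unfold mix
  rw [Measure.sum_apply _ MeasurableSet.univ, ← tsum_half]
  apply tsum_congr
  intro m
  rw [Measure.smul_apply, Measure.finsetSum_apply, smul_eq_mul]
  have : ∑ k ∈ Finset.range (N m), ((N m : ℝ≥0∞)⁻¹ • Measure.dirac (rect (ρ m) k) :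
      Measure (Fin (e + 2) → ℝ)) Set.univ = 1 := by
    rw [← sum_inv_const (hN m)]
    apply Finset.sum_congr rfl
    intro k _
    rw [Measure.smul_apply, measure_univ, smul_eq_mul]
  rw [this, mul_one]

theorem mix_orthant {ρ : ℕ → ℝ} {N : ℕ → ℕ} (hρ : ∀ m, 0 < ρ m) :
    (mix ρ N : Measure (Fin (e + 2) → ℝ)) (orthant (e + 2))ᶜ = 0 := by
  unfold mix
  rw [Measure.sum_apply _ (measurableSet_orthant _).compl, ENNReal.tsum_eq_zero]
  intro m
  rw [Measure.smul_apply, Measure.finsetSum_apply, smul_eq_mul]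
  have : ∑ k ∈ Finset.range (N m), ((N m : ℝ≥0∞)⁻¹ • Measure.dirac (rect (ρ m) k) :
      Measure (Fin (e + 2) → ℝ)) (orthant (e + 2))ᶜ = 0 := by
    apply Finset.sum_eq_zero
    intro k _
    rw [Measure.smul_apply, (isMixing_dirac (fun i => rect_pos (hρ m) k i)).2]
    simp
  rw [this, mul_zero]

theorem isMixing_mix {ρ : ℕ → ℝ} {N : ℕ → ℕ} (hρ : ∀ m, 0 < ρ m) (hN : ∀ m, 0 < N m) :
    IsMixing (mix ρ N : Measure (Fin (e + 2) → ℝ)) := ⟨⟨mix_univ hN⟩, mix_orthant hρ⟩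

theorem atOrigin_mix {ρ : ℕ → ℝ} {N : ℕ → ℕ} (hρ : ∀ m, 0 < ρ m) (hN : ∀ m, 0 < N m) :
    atOrigin (mix ρ N : Measure (Fin (e + 2) → ℝ)) = 1 := by
  unfold atOrigin mix
  rw [lintegral_sum_measure, ← tsum_half]
  apply tsum_congr
  intro m
  rw [lintegral_smul_measure, lintegral_finsetSum_measure, smul_eq_mul]
  have : ∑ k ∈ Finset.range (N m), ∫⁻ y, ENNReal.ofReal (∏ i, y i)⁻¹
      ∂((N m : ℝ≥0∞)⁻¹ • Measure.dirac (rect (ρ m) k) : Measure (Fin (e + 2) → ℝ)) = 1 := by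
    rw [← sum_inv_const (hN m)]
    apply Finset.sum_congr rfl
    intro k _
    rw [lintegral_smul_measure, lintegral_dirac' _ measurable_inv_prod, prod_rect (hρ m),
      smul_eq_mul]
    simp
  rw [this, mul_one]

theorem le_mix (ρ : ℕ → ℝ) {N : ℕ → ℕ} {m k : ℕ} (hN : 0 < N m) (hk : k < N m) :
    ENNReal.ofReal (1 / 2 ^ (m + 1) / N m) • Measure.dirac (rect (ρ m) k)
      ≤ (mix ρ N : Measure (Fin (e + 2) → ℝ)) := by
  have hNR : (0:ℝ) < N m := by exact_mod_cast hN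
  have h1 : ENNReal.ofReal (1 / 2 ^ (m + 1) / N m) = (2⁻¹ : ℝ≥0∞) ^ (m + 1) * (N m : ℝ≥0∞)⁻¹ := by
    rw [div_eq_mul_inv, ENNReal.ofReal_mul (by positivity), ENNReal.ofReal_inv_of_pos hNR,
      ENNReal.ofReal_natCast, one_div, ← inv_pow, ENNReal.ofReal_pow (by norm_num),
      ENNReal.ofReal_inv_of_pos (by norm_num)]
    norm_num
  rw [h1]
  unfold mix
  refine le_trans ?_ (Measure.le_sum _ m)
  rw [Measure.le_iff]
  intro s hs
  rw [Measure.smul_apply, Measure.smul_apply, Measure.finsetSum_apply, smul_eq_mul, smul_eq_mul,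
    mul_assoc]
  gcongr
  have h2 : ((N m : ℝ≥0∞)⁻¹ • Measure.dirac (rect (ρ m) k) :
      Measure (Fin (e + 2) → ℝ)) s ≤ ∑ k ∈ Finset.range (N m), ((N m : ℝ≥0∞)⁻¹ •
        Measure.dirac (rect (ρ m) k) : Measure (Fin (e + 2) → ℝ)) s :=
    Finset.single_le_sum (f := fun k => ((N m : ℝ≥0∞)⁻¹ •
        Measure.dirac (rect (ρ m) k) : Measure (Fin (e + 2) → ℝ)) s)
      (fun _ _ => bot_le) (Finset.mem_range.mpr hk)
  rwa [Measure.smul_apply, smul_eq_mul] at h2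

/-- the level thresholds -/
noncomputable def lev (e m Λ l : ℕ) : ℝ :=
  1 / (2 ^ l * ((2:ℝ) ^ (4 * (e + 2) * Λ) * (1 / 2 ^ (m + 1) / 4 ^ Λ) * (2 * Λ) ^ (e + 1)))

/-- the aspect ratio of block `m` -/
noncomputable def asp (e m Λ : ℕ) : ℝ :=
  2 ^ (2 * Λ) + 2 * 4 ^ Λ * 2 ^ ((e + 1) * (2 * Λ)) / lev e m Λ Λ

theorem lev_pos {e m Λ l : ℕ} (hΛ : 0 < Λ) : 0 < lev e m Λ l := by
  unfold lev; positivity

theorem asp_pos {e m Λ : ℕ} (hΛ : 0 < Λ) : 0 < asp e m Λ := by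
  have := lev_pos (e := e) (m := m) (l := Λ) hΛ
  unfold asp; positivity

/-- the statement for one block -/
theorem block_mix {Λ : ℕ → ℕ} (hΛ : ∀ m, m + 1 ≤ Λ m) (m : ℕ) :
    ∃ A : Set (Fin (2 ^ (4 * (e + 2) * Λ m)) → Fin (e + 2) → ℝ), MeasurableSet A ∧
      (Measure.pi (fun _ : Fin (2 ^ (4 * (e + 2) * Λ m)) =>
        law (mix (fun m => asp e m (Λ m)) (fun m => 4 ^ Λ m)))).real Aᶜ ≤
          2 ^ (e + 5) * (1 / 2) ^ (Λ m) ∧
      (∀ x ∈ A, ∀ j, x j ∈ orthant (e + 2)) ∧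
      ∀ x ∈ A, ∀ G, IsMLE x G →
        ENNReal.ofReal (1 / 2 ^ (m + 1) * (Λ m) ^ (e + 2) / 64) ≤ atOrigin G + 1 := by
  have hΛ0 : ∀ m, 0 < Λ m := fun m => by have := hΛ m; omega
  have hΛR : (1:ℝ) ≤ Λ m := by exact_mod_cast hΛ0 m
  have hN : ∀ m, 0 < 4 ^ Λ m := fun m => by positivity
  have hmix : IsMixing (mix (fun m => asp e m (Λ m)) (fun m => 4 ^ Λ m) :
      Measure (Fin (e + 2) → ℝ)) := isMixing_mix (fun m => asp_pos (hΛ0 m)) hN
  have hlev := lev_pos (e := e) (m := m) (l := Λ m) (hΛ0 m)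
  have hprob : IsProbabilityMeasure (law (mix (fun m => asp e m (Λ m)) (fun m => 4 ^ Λ m)) :
      Measure (Fin (e + 2) → ℝ)) := ⟨law_univ hmix⟩
  have hN4 : ((4 ^ Λ m : ℕ) : ℝ) = 4 ^ Λ m := by push_cast; rfl
  obtain ⟨A, hA1, hA2, hA3, hA4⟩ := block (P := law (mix (fun m => asp e m (Λ m))
    (fun m => 4 ^ Λ m))) (law_orthant _) (π := 1 / 2 ^ (m + 1) / 4 ^ Λ m)
    (ρ := asp e m (Λ m)) (n := 2 ^ (4 * (e + 2) * Λ m)) (J := 2 * Λ m) (Λ := Λ m)
    (N := 4 ^ Λ m) (by positivity) (by have := hΛ0 m; omega) (hΛ0 m) (hN m) (by positivity)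
    (lev e m (Λ m)) (by
      intro l
      unfold lev
      push_cast
      rfl) (by
      unfold lev
      rw [pow_zero, one_mul, one_div_mul_eq_div, div_le_one (by positivity)]
      have h1 : (1:ℝ) ≤ (2 * (Λ m : ℝ)) ^ (e + 1) := one_le_pow₀ (by linarith)
      have h2 : (2:ℝ) ^ ((e + 1) * (2 * Λ m)) * (2 ^ (m + 1) * 4 ^ Λ m) ≤
          2 ^ (4 * (e + 2) * Λ m) := by
        have h3 : (4:ℝ) ^ Λ m = 2 ^ (2 * Λ m) := by
          rw [pow_mul]; norm_num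
        rw [h3, ← pow_add, ← pow_add]
        apply pow_le_pow_right₀ (by norm_num)
        have := hΛ m
        nlinarith
      have h4 : (2:ℝ) ^ ((e + 1) * (2 * Λ m)) ≤
          2 ^ (4 * (e + 2) * Λ m) * (1 / 2 ^ (m + 1) / 4 ^ Λ m) := by
        rw [div_div, mul_one_div, le_div_iff₀ (by positivity)]
        exact h2
      calc (2:ℝ) ^ ((e + 1) * (2 * Λ m))
          ≤ 2 ^ (4 * (e + 2) * Λ m) * (1 / 2 ^ (m + 1) / 4 ^ Λ m) * 1 := by rw [mul_one]; exact h4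
        _ ≤ 2 ^ (4 * (e + 2) * Λ m) * (1 / 2 ^ (m + 1) / 4 ^ Λ m) * (2 * (Λ m : ℝ)) ^ (e + 1) :=
            mul_le_mul_of_nonneg_left h1 (by positivity)) (by
      unfold asp
      have : 0 ≤ 2 * (4:ℝ) ^ Λ m * 2 ^ ((e + 1) * (2 * Λ m)) / lev e m (Λ m) (Λ m) := by
        positivity
      linarith) (by
      unfold asp
      rw [hN4]
      have : (0:ℝ) ≤ 2 ^ (2 * Λ m) := by positivity
      linarith) (by
      intro k hk b hb hbr
      have h1 := law_bx_ge (G := mix (fun m => asp e m (Λ m)) (fun m => 4 ^ Λ m))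
        (le_mix (fun m => asp e m (Λ m)) (N := fun m => 4 ^ Λ m) (hN m) hk)
        (prod_rect (asp_pos (hΛ0 m)) k) hb hbr
      rw [hN4] at h1
      have hbp : 0 < ∏ i, b i := Finset.prod_pos (fun i _ => hb i)
      rw [← ENNReal.ofReal_mul (by positivity)] at h1
      have h2 := ENNReal.toReal_mono (measure_ne_top _ _) h1
      rw [ENNReal.toReal_ofReal (by positivity)] at h2
      exact h2)
  refine ⟨A, hA1, hA2.trans ?_, hA3, ?_⟩
  · rw [hN4, div_le_iff₀ (by positivity)]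
    have h4 : (4:ℝ) ^ Λ m = 2 ^ Λ m * 2 ^ Λ m := by
      rw [← mul_pow]; norm_num
    have h5 : (1 / 2 : ℝ) ^ Λ m * 2 ^ Λ m = 1 := by
      rw [← mul_pow]; norm_num
    have h6 : 2 ^ (e + 5) * (1 / 2 : ℝ) ^ Λ m * (4 ^ Λ m * (Λ m) / 2 ^ (e + 3))
        = 4 * 2 ^ Λ m * (Λ m) * ((1 / 2 : ℝ) ^ Λ m * 2 ^ Λ m) := by
      rw [h4]
      field_simp
      ring
    rw [h6, h5, mul_one]
    have h7 : (0:ℝ) < 4 * 2 ^ Λ m := by positivity
    nlinarith
  · intro x hx G hG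
    refine le_trans (ENNReal.ofReal_le_ofReal (le_of_eq ?_)) (hA4 x hx G hG)
    push_cast
    field_simp
    ring

end Pool.Agent.Helper96.SMU
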