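import Mathlib
import Pool.Agent.Helper96.SMU.Mix

set_option autoImplicit false
set_option linter.unusedVariables false
open MeasureTheory Filter Topology
open scoped ENNReal

namespace Pool.Agent.Helper96.SMU

theorem choose_levels (e : ℕ) {a : ℕ → ℝ}
    (ha : Tendsto (fun n : ℕ => a n / Real.log n ^ (e + 2)) atTop (𝓝 0)) :
    ∃ Λ : ℕ → ℕ, StrictMono Λ ∧ ∀ m, m + 1 ≤ Λ m ∧
      a (2 ^ (4 * (e + 2) * Λ m)) + 1 < 1 / 2 ^ (m + 1) * (Λ m : ℝ) ^ (e + 2) / 64 := by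
  apply Filter.extraction_forall_of_eventually' (P := fun m L => m + 1 ≤ L ∧
      a (2 ^ (4 * (e + 2) * L)) + 1 < 1 / 2 ^ (m + 1) * (L : ℝ) ^ (e + 2) / 64)
  intro m
  rw [← eventually_atTop]
  obtain ⟨c, hc⟩ : ∃ c : ℝ, c = (4 * (e + 2) : ℕ) * Real.log 2 := ⟨_, rfl⟩
  have hc0 : 0 < c := by
    rw [hc]
    have := Real.log_pos (by norm_num : (1:ℝ) < 2)
    positivity
  obtain ⟨δ, hδ⟩ : ∃ δ : ℝ, δ = 1 / (2 ^ (m + 1) * 128 * c ^ (e + 2)) := ⟨_, rfl⟩
  have hδ0 : 0 < δ := by rw [hδ]; positivity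
  have hsub : Tendsto (fun L : ℕ => 2 ^ (4 * (e + 2) * L)) atTop (atTop : Filter ℕ) := by
    apply tendsto_atTop_mono _ tendsto_id
    intro L
    simp only [id]
    calc L ≤ 4 * (e + 2) * L := Nat.le_mul_of_pos_left L (by omega)
      _ ≤ 2 ^ (4 * (e + 2) * L) := Nat.lt_two_pow_self.le
  have h1 := (ha.comp hsub).eventually_lt_const hδ0
  have h2 : Tendsto (fun L : ℕ => 1 / 2 ^ (m + 1) * (L : ℝ) ^ (e + 2) / 128) atTop atTop := by
    have h3 : Tendsto (fun L : ℕ => (L : ℝ) ^ (e + 2)) atTop atTop :=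
      (tendsto_pow_atTop (by omega)).comp tendsto_natCast_atTop_atTop
    have h4 := h3.const_mul_atTop (show (0:ℝ) < 1 / 2 ^ (m + 1) / 128 by positivity)
    refine h4.congr (fun L => ?_)
    ring
  filter_upwards [h1, h2.eventually_ge_atTop 1, eventually_ge_atTop (m + 1)] with L g1 g2 g3
  refine ⟨g3, ?_⟩
  simp only [Function.comp] at g1
  have hL : (1:ℝ) ≤ L := by
    have : 1 ≤ L := by omega
    exact_mod_cast this
  have hlog : Real.log ((2 ^ (4 * (e + 2) * L) : ℕ) : ℝ) = c * L := by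
    rw [hc]
    push_cast
    rw [Real.log_pow]
    push_cast
    ring
  rw [hlog, div_lt_iff₀ (by positivity)] at g1
  have h5 : δ * (c * L) ^ (e + 2) = 1 / 2 ^ (m + 1) * (L : ℝ) ^ (e + 2) / 128 := by
    rw [hδ, mul_pow]
    field_simp
  rw [h5] at g1
  linarith

theorem core (e : ℕ) {a : ℕ → ℝ} (ha0 : ∀ n, 0 ≤ a n)
    (ha : Tendsto (fun n : ℕ => a n / Real.log n ^ (e + 2)) atTop (𝓝 0)) :
    ∃ G₀ : Measure (Fin (e + 2) → ℝ), IsMixing G₀ ∧ atOrigin G₀ = 1 ∧ ExceedsOften G₀ a := by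
  obtain ⟨Λ, hΛm, hΛ⟩ := choose_levels e ha
  have hΛ0 : ∀ m, 0 < Λ m := fun m => by have := (hΛ m).1; omega
  have hN : ∀ m, 0 < 4 ^ Λ m := fun m => by positivity
  refine ⟨mix (fun m => asp e m (Λ m)) (fun m => 4 ^ Λ m),
    isMixing_mix (fun m => asp_pos (hΛ0 m)) hN, atOrigin_mix (fun m => asp_pos (hΛ0 m)) hN, ?_⟩
  have hmix : IsMixing (mix (fun m => asp e m (Λ m)) (fun m => 4 ^ Λ m) :
      Measure (Fin (e + 2) → ℝ)) := isMixing_mix (fun m => asp_pos (hΛ0 m)) hN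
  have hprob : IsProbabilityMeasure (law (mix (fun m => asp e m (Λ m)) (fun m => 4 ^ Λ m)) :
      Measure (Fin (e + 2) → ℝ)) := ⟨law_univ hmix⟩
  intro ε hε
  rw [Filter.frequently_atTop]
  intro n₀
  have hlim : Tendsto (fun m : ℕ => (2:ℝ) ^ (e + 5) * (1 / 2) ^ (Λ m)) atTop (𝓝 0) := by
    have h1 := (tendsto_pow_atTop_nhds_zero_of_lt_one (show (0:ℝ) ≤ 1 / 2 by norm_num)
      (by norm_num)).comp hΛm.tendsto_atTop
    have h2 := h1.const_mul ((2:ℝ) ^ (e + 5))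
    rw [mul_zero] at h2
    exact h2
  obtain ⟨m, hm1, hm2⟩ := ((hlim.eventually_lt_const hε).and (eventually_ge_atTop n₀)).exists
  obtain ⟨A, hA1, hA2, hA3, hA4⟩ := block_mix (e := e) (fun m => (hΛ m).1) m
  refine ⟨2 ^ (4 * (e + 2) * Λ m), ?_, A, hA1, ?_, ?_⟩
  · have h1 := (hΛ m).1
    calc n₀ ≤ m := hm2
      _ ≤ Λ m := by omega
      _ ≤ 4 * (e + 2) * Λ m := Nat.le_mul_of_pos_left _ (by omega)
      _ ≤ 2 ^ (4 * (e + 2) * Λ m) := Nat.lt_two_pow_self.le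
  · rw [probReal_compl_eq_one_sub hA1] at hA2
    linarith
  · intro x hx
    refine ⟨exists_isMLE x (hA3 x hx), ?_⟩
    intro G hG
    have h1 := hA4 x hx G hG
    have h2 := (hΛ m).2
    have h3 : ENNReal.ofReal (a (2 ^ (4 * (e + 2) * Λ m))) + 1 < atOrigin G + 1 := by
      refine lt_of_lt_of_le ?_ h1
      rw [← ENNReal.ofReal_one, ← ENNReal.ofReal_add (ha0 _) (by norm_num)]
      exact (ENNReal.ofReal_lt_ofReal_iff (lt_of_le_of_lt (by have := ha0 (2 ^ (4 * (e + 2) * Λ m)); linarith) h2)).mpr h2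
    exact lt_of_add_lt_add_right h3

theorem ExceedsOften.mono {d : ℕ} {G₀ : Measure (Fin d → ℝ)} {a b : ℕ → ℝ}
    (h : ExceedsOften G₀ a) (hab : ∀ᶠ n in atTop, b n ≤ a n) : ExceedsOften G₀ b := by
  intro ε hε
  refine ((h ε hε).and_eventually hab).mono ?_
  rintro n ⟨⟨A, hA1, hA2, hA3⟩, hn⟩
  refine ⟨A, hA1, hA2, fun x hx => ⟨(hA3 x hx).1, fun G hG => ?_⟩⟩
  exact lt_of_le_of_lt (ENNReal.ofReal_le_ofReal hn) ((hA3 x hx).2 G hG)

theorem main {d : ℕ} (hd : 2 ≤ d) {a : ℕ → ℝ}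
    (ha : Tendsto (fun n : ℕ => a n / Real.log n ^ d) atTop (𝓝 0)) :
    ∃ G₀ : Measure (Fin d → ℝ), IsMixing G₀ ∧ atOrigin G₀ = 1 ∧
      (∀ M : ℝ, ExceedsOften G₀ (fun n => M * Real.log n ^ (d - 1))) ∧ ExceedsOften G₀ a := by
  obtain ⟨e, rfl⟩ : ∃ e, d = e + 2 := ⟨d - 2, by omega⟩
  have hlog : Tendsto (fun n : ℕ => Real.log n) atTop atTop :=
    Real.tendsto_log_atTop.comp tendsto_natCast_atTop_atTop
  have hsq : Tendsto (fun n : ℕ => Real.sqrt (Real.log n)) atTop atTop :=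
    Real.tendsto_sqrt_atTop.comp hlog
  obtain ⟨G₀, h1, h2, h3⟩ := core e (a := fun n => |a n| +
    Real.log n ^ (e + 1) * Real.sqrt (Real.log n)) (fun n => by
      have : 0 ≤ Real.log n := Real.log_natCast_nonneg n
      positivity) (by
    have g1 : Tendsto (fun n : ℕ => |a n / Real.log n ^ (e + 2)|) atTop (𝓝 0) := by
      have := ha.abs
      rwa [abs_zero] at this
    have g2 : Tendsto (fun n : ℕ => (Real.sqrt (Real.log n))⁻¹) atTop (𝓝 0) :=
      hsq.inv_tendsto_atTop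
    have g3 := g1.add g2
    rw [add_zero] at g3
    refine g3.congr' ?_
    filter_upwards [hlog.eventually_gt_atTop 0] with n hn
    rw [abs_div, abs_of_pos (pow_pos hn _), add_div]
    congr 1
    have hs : Real.sqrt (Real.log n) * Real.sqrt (Real.log n) = Real.log n :=
      Real.mul_self_sqrt hn.le
    have hs0 : 0 < Real.sqrt (Real.log n) := Real.sqrt_pos.mpr hn
    rw [inv_eq_one_div, div_eq_div_iff hs0.ne' (by positivity), one_mul, mul_assoc, hs]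
    ring)
  refine ⟨G₀, h1, h2, ?_, ?_⟩
  · intro M
    apply h3.mono
    filter_upwards [hsq.eventually_ge_atTop M] with n hn
    have h0 : 0 ≤ Real.log n := Real.log_natCast_nonneg n
    have h4 : M * Real.log n ^ (e + 1) ≤ Real.sqrt (Real.log n) * Real.log n ^ (e + 1) :=
      mul_le_mul_of_nonneg_right hn (by positivity)
    have h5 := abs_nonneg (a n)
    have h6 : e + 2 - 1 = e + 1 := by omega
    rw [h6]
    linarith
  · apply h3.mono
    filter_upwards [] with n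
    have h0 : 0 ≤ Real.log n := Real.log_natCast_nonneg n
    have h5 := le_abs_self (a n)
    have h6 : 0 ≤ Real.log n ^ (e + 1) * Real.sqrt (Real.log n) := by positivity
    linarith

end Pool.Agent.Helper96.SMU
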